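import Pool.Agent.Run7.h827.NP.Form

set_option autoImplicit false
set_option linter.unusedSectionVars false
set_option linter.unusedVariables false

/-! # The `p`-adic theorems for forms over products of northeast ideals -/

namespace Pool.Agent.Run7.h827.NP

open MeasureTheory Pool.Agent.W427.SMC Pool.Agent.TH192.PA Pool.Agent.TH192.DT Polynomial
  Pool.Agent.Run7.h827.MP Pool.Agent.Run7.h827.NE
open Pool.Agent.H628R4.TP (IsBFunction)
open Pool.Agent.Run7.h827.HM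

variable {T : Type} [Fintype T] [DecidableEq T] (m n q : ℕ) [Fact q.Prime]

/-- the zeta function in the half plane -/
theorem ne_complex (e : T → Cell m n → ℕ) (a : T → ℕ) (s : ℂ) (hs : 0 < s.re) :
    igusaZeta q (formZ (neZ m n) e a) s = ∏ x : Cell m n ⊕ T,
      ((q : ℂ) ^ nuN m n T x - ((q : ℂ) ^ (-s)) ^ lowN m n e a x) /
        ((q : ℂ) ^ nuN m n T x - ((q : ℂ) ^ (-s)) ^ mulN m n e a x) :=
  quot_complex (nuN_pos m n) (ne_quot q m n e a) s hs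

theorem ne_ord (e : T → Cell m n → ℕ) (a : T → ℕ) (Z : ℂ → ℂ) (hZ : MeromorphicOn Z Set.univ)
    (h : ∀ s : ℂ, 0 < s.re → Z s = igusaZeta q (formZ (neZ m n) e a) s) (s0 : ℂ) :
    meromorphicOrderAt Z s0 = ((-((Nat.card {x : Cell m n ⊕ T // 0 < mulN m n e a x ∧
      ((q : ℂ) ^ (-s0)) ^ mulN m n e a x = (q : ℂ) ^ nuN m n T x} : ℤ) -
        Nat.card {x : Cell m n ⊕ T // 0 < lowN m n e a x ∧
      ((q : ℂ) ^ (-s0)) ^ lowN m n e a x = (q : ℂ) ^ nuN m n T x}) : ℤ) : WithTop ℤ) :=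
  quot_order (nuN_pos m n) (ne_quot q m n e a) Z hZ h s0

theorem ne_zroot (e : T → Cell m n → ℕ) (a : T → ℕ) (hd : Down e a) (Z : ℂ → ℂ)
    (hZ : MeromorphicOn Z Set.univ)
    (h : ∀ s : ℂ, 0 < s.re → Z s = igusaZeta q (formZ (neZ m n) e a) s) (s0 : ℂ)
    (hs0 : meromorphicOrderAt Z s0 < 0) (b : ℂ[X])
    (hb : IsBFunction (MvPolynomial.map (Int.castRingHom ℂ) (formZ (neZ m n) e a)) b) :
    b.eval (s0.re : ℂ) = 0 := by
  rw [map_ne] at hb
  exact quot_zroot (neGen m n) _ _ e a (lowN m n e a) q _ (ne_ne m n) (charts m n e a hd)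
    (ne_quot q m n e a) Z hZ h s0 hs0 b hb

theorem ne_mult (e : T → Cell m n → ℕ) (a : T → ℕ) (hd : Down e a) (Z : ℂ → ℂ)
    (hZ : MeromorphicOn Z Set.univ)
    (h : ∀ s : ℂ, 0 < s.re → Z s = igusaZeta q (formZ (neZ m n) e a) s) (s0 : ℂ)
    (h1 : Nat.card {p : Cell m n // 0 < mulN m n e a (Sum.inl p) ∧
      ((q : ℂ) ^ (-s0)) ^ mulN m n e a (Sum.inl p) = (q : ℂ) ^ nuN m n T (Sum.inl p)} ≤ 1)
    (b : ℂ[X]) (hb0 : b ≠ 0)
    (hb : IsBFunction (MvPolynomial.map (Int.castRingHom ℂ) (formZ (neZ m n) e a)) b) :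
    ((-(b.rootMultiplicity (s0.re : ℂ) : ℤ) : ℤ) : WithTop ℤ) ≤ meromorphicOrderAt Z s0 := by
  rw [map_ne] at hb
  exact quot_mult (neGen m n) _ _ e a (lowN m n e a) q _ (ne_ne m n) (charts m n e a hd)
    (ne_quot q m n e a) Z hZ h s0 h1 b hb0 hb

theorem ne_psum (e : T → Cell m n → ℕ) (a : T → ℕ) :
    ((((∏ x : Cell m n ⊕ T, (C ((q : ℂ) ^ nuN m n T x) - X ^ mulN m n e a x)) *
      (1 - X) : ℂ[X])) : PowerSeries ℂ) * poincare q (formZ (neZ m n) e a) =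
        ((((∏ x : Cell m n ⊕ T, (C ((q : ℂ) ^ nuN m n T x) - X ^ mulN m n e a x)) -
          (∏ x : Cell m n ⊕ T, (C ((q : ℂ) ^ nuN m n T x) - X ^ lowN m n e a x)) * X :
            ℂ[X])) : PowerSeries ℂ) :=
  quot_poincare' (ne_quot q m n e a)

theorem ne_poles (e : T → Cell m n → ℕ) (a : T → ℕ) (T₀ : ℂ) (r : ℕ) (hr : 0 < r) :
    Pool.Agent.W206.CU.IsPoleOfOrder (poincare q (formZ (neZ m n) e a)) T₀ r ↔
      Nat.card {x : Cell m n ⊕ T // 0 < mulN m n e a x ∧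
        T₀ ^ mulN m n e a x = (q : ℂ) ^ nuN m n T x} =
      Nat.card {x : Cell m n ⊕ T // 0 < lowN m n e a x ∧
        T₀ ^ lowN m n e a x = (q : ℂ) ^ nuN m n T x} + r :=
  quot_poles (nuN_pos m n) (ne_quot q m n e a) T₀ r hr

theorem ne_proot (e : T → Cell m n → ℕ) (a : T → ℕ) (hd : Down e a) (T₀ : ℂ) (r : ℕ)
    (hr : 0 < r)
    (h : Pool.Agent.W206.CU.IsPoleOfOrder (poincare q (formZ (neZ m n) e a)) T₀ r) (b : ℂ[X])
    (hb : IsBFunction (MvPolynomial.map (Int.castRingHom ℂ) (formZ (neZ m n) e a)) b) :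
    b.eval ((-Real.log ‖T₀‖ / Real.log q : ℝ) : ℂ) = 0 := by
  rw [map_ne] at hb
  exact quot_proot (neGen m n) _ _ e a (lowN m n e a) q _ (ne_ne m n) (charts m n e a hd)
    (ne_quot q m n e a) T₀ r hr h b hb

end Pool.Agent.Run7.h827.NP
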