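import Pool.Agent.Run7.h827.MP.Int

set_option autoImplicit false
set_option linter.unusedSectionVars false
set_option linter.unusedVariables false

/-! # Integrals of products of norms on a flag of quotients of `ℤ_q ^ n` -/

namespace Pool.Agent.Run7.h827.NP

open Matrix Pool.Agent.TH192.PA Pool.Agent.W427.SMC MeasureTheory
open scoped NNReal ENNReal

attribute [local instance] msZ bsZ

variable (q : ℕ) [Fact q.Prime]

/-- The `δ j`, `j < d`, are the norms of the vectors in a flag of torsion free quotients of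
`ℤ_q ^ ι`, of the ranks `d, d - 1, …, 1`. -/
def IsFlag {ι : Type} [Fintype ι] (d : ℕ) (δ : ℕ → (ι → ℤ_[q]) → ℝ≥0) : Prop :=
  (∀ j, j < d → ∃ (k : ℕ) (_ : k + j = d) (φ : (ι → ℤ_[q]) →ₗ[ℤ_[q]] (Fin k → ℤ_[q])),
    Function.Surjective φ ∧ ∀ y, δ j y = Finset.univ.sup fun i => ‖φ y i‖₊) ∧
  ∀ j, j + 1 < d → ∀ y, δ j y = 0 → δ (j + 1) y = 0

theorem sup_zero {k : ℕ} (u : Fin k → ℤ_[q]) (h : (Finset.univ.sup fun i => ‖u i‖₊) = 0) :
    u = 0 := by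
  funext i
  have h1 : ‖u i‖₊ ≤ 0 := by
    rw [← h]
    exact Finset.le_sup (f := fun i => ‖u i‖₊) (Finset.mem_univ i)
  exact nnnorm_eq_zero.1 (le_antisymm h1 bot_le)

theorem flag_shift {ι : Type} [Fintype ι] (d : ℕ) (δ : ℕ → (ι → ℤ_[q]) → ℝ≥0)
    (h : IsFlag q (d + 1) δ) : IsFlag q d (fun j => δ (j + 1)) := by
  refine ⟨fun j hj => ?_, fun j hj y hy => h.2 (j + 1) (by omega) y hy⟩
  obtain ⟨k, hk, φ, h1, h2⟩ := h.1 (j + 1) (by omega)
  exact ⟨k, by omega, φ, h1, h2⟩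

theorem flag_zero {ι : Type} [Fintype ι] (d : ℕ) (δ : ℕ → (ι → ℤ_[q]) → ℝ≥0)
    (h : IsFlag q d δ) (y : ι → ℤ_[q]) (h0 : δ 0 y = 0) (j : ℕ) (hj : j < d) : δ j y = 0 := by
  induction j with
  | zero => exact h0
  | succ j ih => exact h.2 j hj y (ih (by omega))

theorem flag_cont {ι : Type} [Fintype ι] (d : ℕ) (δ : ℕ → (ι → ℤ_[q]) → ℝ≥0)
    (h : IsFlag q d δ) (j : ℕ) (hj : j < d) : Continuous (δ j) := by
  obtain ⟨k, hk, φ, h1, h2⟩ := h.1 j hj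
  have h3 : δ j = fun y => Finset.univ.sup fun i => ‖φ y i‖₊ := funext h2
  rw [h3]
  refine Continuous.finset_sup_apply fun i _ => ?_
  have h4 : Continuous φ := LinearMap.continuous_on_pi φ
  exact ((continuous_apply i).comp h4).nnnorm

theorem flag_meas {ι : Type} [Fintype ι] (d : ℕ) (δ : ℕ → (ι → ℤ_[q]) → ℝ≥0)
    (h : IsFlag q d δ) (σ : ℕ → ℝ) :
    Measurable fun y => ∏ j ∈ Finset.range d, ((δ j y : ℝ≥0) : ℝ≥0∞) ^ σ j := by
  refine Finset.measurable_prod _ fun j hj => ?_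
  exact (measurable_coe_nnreal_ennreal.comp
    (flag_cont q d δ h j (Finset.mem_range.1 hj)).measurable).pow_const _

/-- reduction to the case that the first quotient is everything -/
theorem flag_factor {ι : Type} [Fintype ι] (d : ℕ) (δ : ℕ → (ι → ℤ_[q]) → ℝ≥0)
    (h : IsFlag q (d + 1) δ) :
    ∃ (Φ : (ι → ℤ_[q]) →ₗ[ℤ_[q]] (Fin (d + 1) → ℤ_[q]))
      (s : (Fin (d + 1) → ℤ_[q]) →ₗ[ℤ_[q]] (ι → ℤ_[q])),
      (∀ z, Φ (s z) = z) ∧ IsFlag q (d + 1) (fun j z => δ j (s z)) ∧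
      (∀ j, j < d + 1 → ∀ y, δ j y = δ j (s (Φ y))) ∧
      ∀ z, δ 0 (s z) = Finset.univ.sup fun i => ‖z i‖₊ := by
  obtain ⟨k, hk, Φ, h1, h2⟩ := h.1 0 (by omega)
  have hk' : k = d + 1 := by omega
  subst hk'
  obtain ⟨s, hs⟩ := Module.projective_lifting_property Φ LinearMap.id h1
  have hs' : ∀ z, Φ (s z) = z := fun z => LinearMap.congr_fun hs z
  have hkey : ∀ j, j < d + 1 → ∀ (k : ℕ) (_ : k + j = d + 1)
      (φ : (ι → ℤ_[q]) →ₗ[ℤ_[q]] (Fin k → ℤ_[q])),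
      (∀ y, δ j y = Finset.univ.sup fun i => ‖φ y i‖₊) → ∀ y, φ (s (Φ y)) = φ y := by
    intro j hj k hk φ hφ y
    have h3 : δ 0 (s (Φ y) - y) = 0 := by
      rw [h2, map_sub, hs', sub_self]
      simp
    have h4 := flag_zero q _ δ h _ h3 j hj
    rw [hφ] at h4
    have h5 := sup_zero q _ h4
    rw [map_sub, sub_eq_zero] at h5
    exact h5
  refine ⟨Φ, s, hs', ⟨fun j hj => ?_, fun j hj z hz => h.2 j hj _ hz⟩, fun j hj y => ?_,
    fun z => by rw [h2, hs']⟩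
  · obtain ⟨k, hk, φ, h3, h4⟩ := h.1 j hj
    refine ⟨k, hk, φ ∘ₗ s, fun w => ?_, fun z => h4 _⟩
    obtain ⟨y, hy⟩ := h3 w
    exact ⟨Φ y, by rw [LinearMap.comp_apply, hkey j hj k hk φ h4, hy]⟩
  · obtain ⟨k, hk, φ, h3, h4⟩ := h.1 j hj
    rw [h4, h4, hkey j hj k hk φ h4]

/-- the value of the integral -/
noncomputable def vR : ℕ → (ℕ → ℝ) → ℝ
  | 0, _ => 1
  | d + 1, σ => ((q : ℝ) ^ (d + 1) - (q : ℝ) ^ (-∑ j ∈ Finset.range d, σ (j + 1))) /
      ((q : ℝ) ^ (d + 1) - (q : ℝ) ^ (-∑ j ∈ Finset.range (d + 1), σ j)) *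
        vR d (fun j => σ (j + 1))

theorem pow_sub_pos (d : ℕ) (x : ℝ) (hx : 0 ≤ x) : 0 < (q : ℝ) ^ (d + 1) - (q : ℝ) ^ (-x) := by
  have hq1 : (1 : ℝ) < q := by exact_mod_cast (Fact.out : q.Prime).one_lt
  have h1 : (1 : ℝ) < (q : ℝ) ^ (d + 1) := one_lt_pow₀ hq1 (Nat.succ_ne_zero d)
  have h2 : (q : ℝ) ^ (-x) ≤ 1 := Real.rpow_le_one_of_one_le_of_nonpos hq1.le (by linarith)
  linarith

theorem vR_pos (d : ℕ) : ∀ (σ : ℕ → ℝ) (_ : ∀ j, 0 ≤ σ j), 0 < vR q d σ := by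
  induction d with
  | zero => intro σ _; exact one_pos
  | succ d ih =>
    intro σ hσ
    exact mul_pos (div_pos (pow_sub_pos q d _ (Finset.sum_nonneg fun j _ => hσ _))
      (pow_sub_pos q d _ (Finset.sum_nonneg fun j _ => hσ _))) (ih _ fun j => hσ _)

theorem nq_pow (σ : ℝ) (hσ : 0 ≤ σ) :
    ((‖(q : ℤ_[q])‖₊ : ℝ≥0) : ℝ≥0∞) ^ σ = ENNReal.ofReal ((q : ℝ) ^ (-σ)) := by
  have hq0 : (0 : ℝ) < q := by exact_mod_cast (Fact.out : q.Prime).pos
  have h4 : ((‖(q : ℤ_[q])‖₊ : ℝ≥0) : ℝ≥0∞) = ENNReal.ofReal ((q : ℝ)⁻¹) := by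
    rw [ENNReal.ofReal]
    congr 1
    apply NNReal.coe_injective
    rw [Real.coe_toNNReal _ (inv_nonneg.2 hq0.le), coe_nnnorm, PadicInt.norm_p]
  rw [h4, ENNReal.ofReal_rpow_of_nonneg (inv_nonneg.2 hq0.le) hσ,
    Real.inv_rpow hq0.le, Real.rpow_neg hq0.le]

/-- a vector which does not vanish modulo `q` has the norm one -/
theorem sup_one {k : ℕ} (w : Fin k → ZMod q) (hw : w ≠ 0) (z : Fin k → ℤ_[q]) :
    (Finset.univ.sup fun i => ‖((w i).val : ℤ_[q]) + (q : ℤ_[q]) * z i‖₊ : ℝ≥0) = 1 := by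
  have hp : NeZero q := ⟨(Fact.out : q.Prime).ne_zero⟩
  obtain ⟨j, hj⟩ : ∃ j, w j ≠ 0 := by
    by_contra hcon
    push Not at hcon
    exact hw (funext hcon)
  refine le_antisymm (Finset.sup_le fun i _ => PadicInt.norm_le_one _) ?_
  refine le_trans (le_of_eq ?_) (Finset.le_sup (f := fun i =>
    ‖((w i).val : ℤ_[q]) + (q : ℤ_[q]) * z i‖₊) (Finset.mem_univ j))
  have h3 : IsUnit (((w j).val : ℤ_[q]) + (q : ℤ_[q]) * z j) := by
    by_contra hnu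
    have h4 : ((w j).val : ℤ_[q]) + (q : ℤ_[q]) * z j ∈
        IsLocalRing.maximalIdeal ℤ_[q] := (IsLocalRing.mem_maximalIdeal _).2 hnu
    rw [← PadicInt.ker_toZMod, RingHom.mem_ker, map_add, map_mul, map_natCast,
      map_natCast, ZMod.natCast_self, zero_mul, add_zero, ZMod.natCast_zmod_val] at h4
    exact hj h4
  have h5 := PadicInt.isUnit_iff.1 h3
  exact (NNReal.coe_injective (by rw [coe_nnnorm, h5]; rfl)).symm

/-- multiplication by `q` -/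
theorem flag_smul {ι : Type} [Fintype ι] (d : ℕ) (δ : ℕ → (ι → ℤ_[q]) → ℝ≥0)
    (h : IsFlag q d δ) (σ : ℕ → ℝ) (hσ : ∀ j, 0 ≤ σ j) (y : ι → ℤ_[q]) :
    ∏ j ∈ Finset.range d, ((δ j ((q : ℤ_[q]) • y) : ℝ≥0) : ℝ≥0∞) ^ σ j =
      ENNReal.ofReal ((q : ℝ) ^ (-∑ j ∈ Finset.range d, σ j)) *
        ∏ j ∈ Finset.range d, ((δ j y : ℝ≥0) : ℝ≥0∞) ^ σ j := by
  have hq0 : (0 : ℝ) < q := by exact_mod_cast (Fact.out : q.Prime).pos
  rw [← Finset.sum_neg_distrib, Real.rpow_sum_of_pos hq0,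
    ENNReal.ofReal_prod_of_nonneg fun j _ => Real.rpow_nonneg hq0.le _, ← Finset.prod_mul_distrib]
  refine Finset.prod_congr rfl fun j hj => ?_
  obtain ⟨k, hk, φ, h3, h4⟩ := h.1 j (Finset.mem_range.1 hj)
  rw [← nq_pow q (σ j) (hσ j), ← ENNReal.mul_rpow_of_nonneg _ _ (hσ j), ← ENNReal.coe_mul]
  congr 2
  rw [h4, h4, NNReal.mul_finset_sup]
  refine Finset.sup_congr rfl fun i _ => ?_
  rw [map_smul, Pi.smul_apply, smul_eq_mul, nnnorm_mul]

/-- **The integral over a flag.** -/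
theorem flag_int (d : ℕ) : ∀ (σ : ℕ → ℝ) (_ : ∀ j, 0 ≤ σ j) (ι : Type) [Fintype ι]
    (δ : ℕ → (ι → ℤ_[q]) → ℝ≥0) (_ : IsFlag q d δ),
    ∫⁻ y, ∏ j ∈ Finset.range d, ((δ j y : ℝ≥0) : ℝ≥0∞) ^ σ j ∂(hm q ι)
      = ENNReal.ofReal (vR q d σ) := by
  classical
  induction d with
  | zero =>
    intro σ hσ ι _ δ h
    simp only [Finset.range_zero, Finset.prod_empty, lintegral_one, measure_univ]
    rw [vR, ENNReal.ofReal_one]
  | succ d ih =>
    intro σ hσ ι _ δ h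
    obtain ⟨Φ, s, hΦs, hf, hδ, hδ0⟩ := flag_factor q d δ h
    set δ' : ℕ → (Fin (d + 1) → ℤ_[q]) → ℝ≥0 := fun j z => δ j (s z) with hδ'
    set F : (Fin (d + 1) → ℤ_[q]) → ℝ≥0∞ := fun z =>
      ∏ j ∈ Finset.range (d + 1), ((δ' j z : ℝ≥0) : ℝ≥0∞) ^ σ j with hF
    have hFm : Measurable F := flag_meas q (d + 1) δ' hf σ
    have hΦm : Measurable fun y => Φ y := (LinearMap.continuous_on_pi Φ).measurable
    have h1 : ∫⁻ y, ∏ j ∈ Finset.range (d + 1), ((δ j y : ℝ≥0) : ℝ≥0∞) ^ σ j ∂(hm q ι)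
        = ∫⁻ z, F z ∂(hm q (Fin (d + 1))) := by
      rw [← lintegral_equivariant q (fun y => Φ y) (fun z => s z) hΦm
        (fun z y => by rw [map_add, hΦs]) F hFm]
      refine lintegral_congr fun y => ?_
      refine Finset.prod_congr rfl fun j hj => ?_
      rw [hδ j (Finset.mem_range.1 hj) y]
    rw [h1]
    set G : (Fin (d + 1) → ℤ_[q]) → ℝ≥0∞ := fun z =>
      ∏ j ∈ Finset.range d, ((δ' (j + 1) z : ℝ≥0) : ℝ≥0∞) ^ σ (j + 1) with hG
    have hfs := flag_shift q d δ' hf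
    have hGm : Measurable G := flag_meas q d (fun j => δ' (j + 1)) hfs fun j => σ (j + 1)
    have hJ : ∫⁻ z, G z ∂(hm q (Fin (d + 1))) = ENNReal.ofReal (vR q d fun j => σ (j + 1)) :=
      ih (fun j => σ (j + 1)) (fun j => hσ _) (Fin (d + 1)) (fun j => δ' (j + 1)) hfs
    set S : ℝ := ∑ j ∈ Finset.range (d + 1), σ j with hS
    set S' : ℝ := ∑ j ∈ Finset.range d, σ (j + 1) with hS'
    have hS0 : 0 ≤ S := Finset.sum_nonneg fun j _ => hσ j
    have hS'0 : 0 ≤ S' := Finset.sum_nonneg fun j _ => hσ _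
    set I := ∫⁻ z, F z ∂(hm q (Fin (d + 1))) with hI
    set J := ∫⁻ z, G z ∂(hm q (Fin (d + 1))) with hJdef
    set c : ℝ≥0∞ := ((q : ℝ≥0∞)⁻¹) ^ (d + 1) with hc
    have hp : NeZero q := ⟨(Fact.out : q.Prime).ne_zero⟩
    have hFG : ∀ z, F z = ((δ' 0 z : ℝ≥0) : ℝ≥0∞) ^ σ 0 * G z := by
      intro z
      rw [hF, hG]
      simp only
      rw [Finset.prod_range_succ', mul_comm]
    have hIw : I = c * ∑ w : Fin (d + 1) → ZMod q,
        ∫⁻ z, F (fun i => ((w i).val : ℤ_[q]) + (q : ℤ_[q]) * z i) ∂(hm q (Fin (d + 1))) := by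
      rw [hI, lintegral_smV q F hFm, smV, Fintype.card_fin, ← Finset.mul_sum]
    have hJw : J = c * ∑ w : Fin (d + 1) → ZMod q,
        ∫⁻ z, G (fun i => ((w i).val : ℤ_[q]) + (q : ℤ_[q]) * z i) ∂(hm q (Fin (d + 1))) := by
      rw [hJdef, lintegral_smV q G hGm, smV, Fintype.card_fin, ← Finset.mul_sum]
    rw [← Finset.add_sum_erase _ _ (Finset.mem_univ (0 : Fin (d + 1) → ZMod q))] at hIw hJw
    have hsm : ∀ z : Fin (d + 1) → ℤ_[q],
        (fun i => ((((0 : Fin (d + 1) → ZMod q) i).val : ℕ) : ℤ_[q]) + (q : ℤ_[q]) * z i)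
          = (q : ℤ_[q]) • z := by
      intro z
      funext i
      rw [Pi.zero_apply, ZMod.val_zero, Nat.cast_zero, zero_add, Pi.smul_apply, smul_eq_mul]
    have hI0 : ∫⁻ z, F (fun i => (((0 : Fin (d + 1) → ZMod q) i).val : ℤ_[q]) +
        (q : ℤ_[q]) * z i) ∂(hm q (Fin (d + 1))) = ENNReal.ofReal ((q : ℝ) ^ (-S)) * I := by
      rw [hI, ← lintegral_const_mul _ hFm]
      refine lintegral_congr fun z => ?_
      rw [hsm z]
      exact flag_smul q (d + 1) δ' hf σ hσ z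
    have hJ0 : ∫⁻ z, G (fun i => (((0 : Fin (d + 1) → ZMod q) i).val : ℤ_[q]) +
        (q : ℤ_[q]) * z i) ∂(hm q (Fin (d + 1))) = ENNReal.ofReal ((q : ℝ) ^ (-S')) * J := by
      rw [hJdef, ← lintegral_const_mul _ hGm]
      refine lintegral_congr fun z => ?_
      rw [hsm z]
      exact flag_smul q d (fun j => δ' (j + 1)) hfs (fun j => σ (j + 1)) (fun j => hσ _) z
    have hrest : ∑ w ∈ Finset.univ.erase (0 : Fin (d + 1) → ZMod q),
        ∫⁻ z, F (fun i => ((w i).val : ℤ_[q]) + (q : ℤ_[q]) * z i) ∂(hm q (Fin (d + 1))) =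
        ∑ w ∈ Finset.univ.erase (0 : Fin (d + 1) → ZMod q),
        ∫⁻ z, G (fun i => ((w i).val : ℤ_[q]) + (q : ℤ_[q]) * z i) ∂(hm q (Fin (d + 1))) := by
      refine Finset.sum_congr rfl fun w hw => ?_
      refine lintegral_congr fun z => ?_
      rw [hFG, show δ' 0 _ = _ from hδ0 _, sup_one q w (Finset.mem_erase.1 hw).1 z,
        ENNReal.coe_one, ENNReal.one_rpow, one_mul]
    rw [hI0, hrest] at hIw
    rw [hJ0] at hJw
    set R := ∑ w ∈ Finset.univ.erase (0 : Fin (d + 1) → ZMod q),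
        ∫⁻ z, G (fun i => ((w i).val : ℤ_[q]) + (q : ℤ_[q]) * z i) ∂(hm q (Fin (d + 1))) with hR
    have hle1 : ∀ z, F z ≤ 1 := by
      intro z
      refine Finset.prod_le_one' fun j hj => ?_
      refine ENNReal.rpow_le_one ?_ (hσ j)
      rw [← ENNReal.coe_one, ENNReal.coe_le_coe]
      obtain ⟨k, hk, φ, h3, h4⟩ := hf.1 j (Finset.mem_range.1 hj)
      change δ' j z ≤ 1
      rw [h4]
      exact Finset.sup_le fun i _ => PadicInt.norm_le_one _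
    have hIfin : I ≠ ⊤ := by
      refine ne_top_of_le_ne_top ENNReal.one_ne_top ?_
      calc I ≤ ∫⁻ z : Fin (d + 1) → ℤ_[q], 1 ∂(hm q (Fin (d + 1))) := lintegral_mono hle1
        _ = 1 := by rw [lintegral_one, measure_univ]
    have hJfin : J ≠ ⊤ := by rw [hJ]; exact ENNReal.ofReal_ne_top
    have hcfin : c ≠ ⊤ := by
      refine ENNReal.pow_ne_top (ENNReal.inv_ne_top.2 ?_)
      exact_mod_cast (Fact.out : q.Prime).ne_zero
    have hkey : I + c * (ENNReal.ofReal ((q : ℝ) ^ (-S')) * J) =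
        J + c * (ENNReal.ofReal ((q : ℝ) ^ (-S)) * I) := by
      conv_lhs => rw [hIw]
      conv_rhs => rw [hJw]
      ring
    have hq0 : (0 : ℝ) < q := by exact_mod_cast (Fact.out : q.Prime).pos
    have hreal := congrArg ENNReal.toReal hkey
    rw [ENNReal.toReal_add hIfin (ENNReal.mul_ne_top hcfin
        (ENNReal.mul_ne_top ENNReal.ofReal_ne_top hJfin)),
      ENNReal.toReal_add hJfin (ENNReal.mul_ne_top hcfin
        (ENNReal.mul_ne_top ENNReal.ofReal_ne_top hIfin)),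
      ENNReal.toReal_mul, ENNReal.toReal_mul, ENNReal.toReal_mul, ENNReal.toReal_mul,
      ENNReal.toReal_ofReal (Real.rpow_nonneg hq0.le _),
      ENNReal.toReal_ofReal (Real.rpow_nonneg hq0.le _), hc, ENNReal.toReal_pow,
      ENNReal.toReal_inv, ENNReal.toReal_natCast] at hreal
    have hJr : J.toReal = vR q d fun j => σ (j + 1) := by
      rw [hJ, ENNReal.toReal_ofReal (vR_pos q d _ fun j => hσ _).le]
    rw [← ENNReal.ofReal_toReal hIfin]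
    congr 1
    have hd := pow_sub_pos q d S hS0
    rw [vR, ← hJr, div_mul_eq_mul_div, eq_div_iff hd.ne']
    have h3 : (q : ℝ) ^ (d + 1) ≠ 0 := pow_ne_zero _ hq0.ne'
    rw [inv_pow] at hreal
    field_simp at hreal
    linarith

end Pool.Agent.Run7.h827.NP
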