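import Pool.Agent.Run7.h827.MP.Mult

set_option autoImplicit false
set_option linter.unusedSectionVars false
set_option linter.unusedVariables false

/-! # Zeta functions which are products of quotients: the formula in the half plane, the Poincaré
series, the poles and their orders -/

namespace Pool.Agent.Run7.h827.NP

open MeasureTheory Pool.Agent.W427.SMC Pool.Agent.TH192.PA Pool.Agent.TH192.DT Polynomial Filter
  Topology Pool.Agent.Run7.h827.MP
open Pool.Agent.W206.CU (gen_igusa norm_T_lt T_ne_zero IsPoleOfOrder)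
open Pool.Agent.W425.PZ (gen_eval)
open Pool.Agent.H628R4.TP (IsBFunction)
open Pool.Agent.Run7.h827.HM

attribute [local instance] msZ bsZ

section Abs

variable {W ι : Type} [Fintype W] [Fintype ι] (q : ℕ) [Fact q.Prime] (f : MvPolynomial W ℤ)
  (ν N M : ι → ℕ)

/-- The zeta function of `f` is the product of the `(q ^ ν_i - q ^ (-M_i s)) / (q ^ ν_i - q ^ (-N_i
s))`, for real `s > 0`. -/
def QuotZeta : Prop := ∀ s : ℝ, 0 < s → (Rc q ν N).eval (pw q s) * igusaZeta q f s
  = (Rc q ν M).eval (pw q s)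

theorem mero_quot (R P : ℂ[X]) (hR : R ≠ 0) (hP : P ≠ 0) (g : ℂ → ℂ)
    (hg : MeromorphicOn g Set.univ)
    (h : ∀ s : ℝ, 0 < s → R.eval (pw q s) * g s = P.eval (pw q s)) (s0 : ℂ) :
    meromorphicOrderAt g s0 =
      ((-((R.rootMultiplicity (pw q s0) : ℤ) - P.rootMultiplicity (pw q s0)) : ℤ) :
        WithTop ℤ) := by
  set F1 : ℂ → ℂ := (fun s => R.eval (pw q s)) * g with hF1
  set F2 : ℂ → ℂ := fun s => P.eval (pw q s) with hF2
  have hRa : ∀ s, AnalyticAt ℂ (fun s => R.eval (pw q s)) s := fun s =>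
    (R.differentiable.analyticAt (pw q s)).comp (pw_analytic q s)
  have hPa : ∀ s, AnalyticAt ℂ F2 s := fun s =>
    (P.differentiable.analyticAt (pw q s)).comp (pw_analytic q s)
  have hm : MeromorphicOn (F1 - F2) Set.univ := fun s hs =>
    ((hRa s).meromorphicAt.mul (hg s hs)).sub (hPa s).meromorphicAt
  have h1 : meromorphicOrderAt (F1 - F2) 1 = ⊤ := by
    by_contra hne
    have h2 := (meromorphicOrderAt_ne_top_iff_eventually_ne_zero (hm 1 (Set.mem_univ _))).1 hne
    rw [eventually_nhdsWithin_iff, Metric.eventually_nhds_iff] at h2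
    obtain ⟨ε, hε, h3⟩ := h2
    have h4 := h3 (y := ((1 + ε / 2 : ℝ) : ℂ)) (by
      rw [dist_eq_norm]
      have : ((1 + ε / 2 : ℝ) : ℂ) - 1 = ((ε / 2 : ℝ) : ℂ) := by push_cast; ring
      rw [this, Complex.norm_real, Real.norm_of_nonneg (by positivity)]
      linarith) (by
      intro h5
      have h6 : ((1 + ε / 2 : ℝ) : ℂ) = ((1 : ℝ) : ℂ) := by simpa using h5
      have h7 := Complex.ofReal_injective h6
      linarith)
    apply h4
    simp only [Pi.sub_apply, hF1, hF2, Pi.mul_apply]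
    rw [h (1 + ε / 2) (by positivity), sub_self]
  have h2 : meromorphicOrderAt (F1 - F2) s0 = ⊤ := by
    by_contra hne
    exact hm.meromorphicOrderAt_ne_top_of_isPreconnected isPreconnected_univ (Set.mem_univ s0)
      (Set.mem_univ 1) hne h1
  have h3 : F1 =ᶠ[𝓝[≠] s0] F2 := by
    rw [meromorphicOrderAt_eq_top_iff] at h2
    filter_upwards [h2] with z hz
    exact sub_eq_zero.1 hz
  have h4 : meromorphicOrderAt F1 s0 = meromorphicOrderAt F2 s0 := meromorphicOrderAt_congr h3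
  have hord : ∀ Q : ℂ[X], Q ≠ 0 → meromorphicOrderAt (fun s => Q.eval (pw q s)) s0 =
      (Q.rootMultiplicity (pw q s0) : ℤ) := by
    intro Q hQ
    have := meromorphicOrderAt_comp_of_deriv_ne_zero (f := fun z => Q.eval z) (pw_analytic q s0)
      (pw_deriv q s0)
    rw [order_poly Q hQ] at this
    exact this
  have h5 : meromorphicOrderAt F2 s0 = (P.rootMultiplicity (pw q s0) : ℤ) := hord P hP
  rw [h5, hF1, meromorphicOrderAt_mul (hRa s0).meromorphicAt (hg s0 (Set.mem_univ _)),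
    hord R hR] at h4
  rcases hgo : meromorphicOrderAt g s0 with _ | n
  · rw [hgo] at h4
    have h7 : ((R.rootMultiplicity (pw q s0) : ℤ) : WithTop ℤ) + (⊤ : WithTop ℤ) =
      ((P.rootMultiplicity (pw q s0) : ℤ) : WithTop ℤ) := h4
    rw [WithTop.add_top] at h7
    exact absurd h7 (by exact WithTop.top_ne_coe)
  · rw [hgo] at h4
    change ((R.rootMultiplicity (pw q s0) : ℤ) : WithTop ℤ) + ((n : ℤ) : WithTop ℤ)
      = ((P.rootMultiplicity (pw q s0) : ℤ) : WithTop ℤ) at h4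
    change ((n : ℤ) : WithTop ℤ) = _
    rw [← WithTop.coe_add, WithTop.coe_inj] at h4
    rw [WithTop.coe_inj]
    omega

variable {q f ν N M}

/-- **The exact orders of the poles.** -/
theorem quot_order (hν : ∀ i, 0 < ν i) (hf : QuotZeta q f ν N M) (Z : ℂ → ℂ)
    (hZ : MeromorphicOn Z Set.univ) (h : ∀ s : ℂ, 0 < s.re → Z s = igusaZeta q f s) (s0 : ℂ) :
    meromorphicOrderAt Z s0
      = ((-((cntP q ν N ((q : ℂ) ^ (-s0)) : ℤ) - cntP q ν M ((q : ℂ) ^ (-s0))) : ℤ) :
        WithTop ℤ) := by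
  have hq1 : 1 < q := (Fact.out : q.Prime).one_lt
  rw [mero_quot q (Rc q ν N) (Rc q ν M) (Rc_ne q hq1 _ _ hν) (Rc_ne q hq1 _ _ hν) Z hZ
    (fun s hs => by rw [h s (by simpa using hs)]; exact hf s hs) s0, rm_cnt q ν N hν,
    rm_cnt q ν M hν, pw_cpow]

/-- **The Poincaré series.** -/
theorem quot_poincare (hf : QuotZeta q f ν N M) :
    ((Rc q ν N * (1 - X) : ℂ[X]) : PowerSeries ℂ) * poincare q f =
        ((Rc q ν N - Rc q ν M * X : ℂ[X]) : PowerSeries ℂ) := by
  set D := Rc q ν N with hDdef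
  set E := Rc q ν M with hE
  have h : ∀ s : ℝ, 0 < s → D.eval (tr' q s : ℂ) *
      ((∫⁻ z, tau q s (MvPolynomial.aeval z f) ∂(Measure.pi fun _ => mu q)).toReal : ℂ) =
        E.eval (tr' q s : ℂ) := by
    intro s hs
    have h1 := hf s hs
    rw [hm_igusa, pw_real] at h1
    exact h1
  rw [← sub_eq_zero]
  refine Conv.zero_of ?_
  have h4 := ((poincare_conv q f).poly_mul (D * (1 - X))).add
    ((Conv.poly (D - E * X)).C_mul (-1))
  have h5 : ((D * (1 - X) : ℂ[X]) : PowerSeries ℂ) * poincare q f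
      - ((D - E * X : ℂ[X]) : PowerSeries ℂ) =
      ((D * (1 - X) : ℂ[X]) : PowerSeries ℂ) * poincare q f
        + PowerSeries.C (-1) * ((D - E * X : ℂ[X]) : PowerSeries ℂ) := by
    rw [map_neg, map_one]; ring
  rw [h5]
  refine h4.congr fun t h0 h1' => ?_
  obtain ⟨s, hs, rfl⟩ := exists_s q t h0 h1'
  have h6 := poin_val q f s hs
  have h7 := h s hs
  set Z := (∫⁻ z, tau q s (MvPolynomial.aeval z f) ∂(Measure.pi fun _ => mu q)).toReal
  have h8 : (1 - (tr' q s : ℂ)) * ∑' m : ℕ, (cN q f m : ℂ) * (tr' q s : ℂ) ^ m =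
      1 - (tr' q s : ℂ) * (Z : ℂ) := by
    have h9 := congrArg (fun x : ℝ => (x : ℂ)) h6
    simp only [Complex.ofReal_mul, Complex.ofReal_sub, Complex.ofReal_one,
      Complex.ofReal_tsum, Complex.ofReal_pow] at h9
    exact h9
  simp only [eval_sub, eval_mul, eval_X, eval_one, eval_C]
  linear_combination D.eval (tr' q s : ℂ) * h8 - (tr' q s : ℂ) * h7

/-- **The poles of the Poincaré series and their orders.** -/
theorem quot_poles (hν : ∀ i, 0 < ν i) (hf : QuotZeta q f ν N M) (T₀ : ℂ) (r : ℕ) (hr : 0 < r) :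
    IsPoleOfOrder (poincare q f) T₀ r ↔ cntP q ν N T₀ = cntP q ν M T₀ + r := by
  have hq1 : 1 < q := (Fact.out : q.Prime).one_lt
  have hK := kq_ne q ν hν
  set D := Rc q ν N with hDdef
  set E := Rc q ν M with hEdef
  set K : ℂ := ∏ i, ((q : ℂ) ^ ν i - 1) with hKdef
  have hD0 : D ≠ 0 := Rc_ne q hq1 _ _ hν
  have hE0 : E ≠ 0 := Rc_ne q hq1 _ _ hν
  have hrm : D.rootMultiplicity T₀ = cntP q ν N T₀ := rm_cnt q ν N hν T₀
  have hrmE : E.rootMultiplicity T₀ = cntP q ν M T₀ := rm_cnt q ν M hν T₀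
  have hform := quot_poincare hf
  rw [← hDdef, ← hEdef] at hform
  have hone : D.eval 1 = K := rc_eval_one
  have honeE : E.eval 1 = K := rc_eval_one
  have hX1 : (1 - X : ℂ[X]) ≠ 0 := by
    intro h
    have := congrArg (fun P : ℂ[X] => P.eval 0) h
    simp at this
  have hcnt0 : ∀ L : ι → ℕ, cntP q ν L 0 = 0 := by
    intro L
    unfold cntP
    rw [Nat.card_eq_zero]
    left
    refine ⟨fun i => ?_⟩
    have h2 := i.2.2
    rw [zero_pow i.2.1.ne'] at h2
    have h3 : q ^ ν i.1 ≠ 0 := pow_ne_zero _ (Fact.out : q.Prime).ne_zero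
    exact h3 (by exact_mod_cast h2.symm)
  obtain ⟨D1, hD1, hDnd⟩ := exists_eq_pow_rootMultiplicity_mul_and_not_dvd D hD0 T₀
  obtain ⟨E1, hE1, hEnd⟩ := exists_eq_pow_rootMultiplicity_mul_and_not_dvd E hE0 T₀
  have hD1e : D1.eval T₀ ≠ 0 := fun h5 => hDnd (dvd_iff_isRoot.2 h5)
  have hE1e : E1.eval T₀ ≠ 0 := fun h5 => hEnd (dvd_iff_isRoot.2 h5)
  constructor
  · rintro ⟨A, B, hA, hB, h⟩
    have h1 : (X - C T₀) ^ r * B * (D - E * X) = A * (D * (1 - X)) := by
      have h2 : (((X - C T₀) ^ r * B * (D - E * X) : ℂ[X]) : PowerSeries ℂ) =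
          ((A * (D * (1 - X)) : ℂ[X]) : PowerSeries ℂ) := by
        rw [Polynomial.coe_mul, Polynomial.coe_mul A, ← h, ← hform]
        ring
      exact Polynomial.coe_injective ℂ h2
    have hB0 : B ≠ 0 := by
      rintro rfl
      exact hB eval_zero
    have hA0 : A ≠ 0 := by
      rintro rfl
      exact hA eval_zero
    have hp0 : (X - C T₀) ^ r ≠ 0 := pow_ne_zero _ (X_sub_C_ne_zero T₀)
    have hN0 : D - E * X ≠ 0 := by
      intro h0
      rw [h0, mul_zero] at h1
      exact mul_ne_zero hA0 (mul_ne_zero hD0 hX1) h1.symm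
    have h7 := congrArg (rootMultiplicity T₀) h1
    rw [rootMultiplicity_mul (mul_ne_zero (mul_ne_zero hp0 hB0) hN0),
      rootMultiplicity_mul (mul_ne_zero hp0 hB0), rootMultiplicity_X_sub_C_pow,
      rootMultiplicity_mul (mul_ne_zero hA0 (mul_ne_zero hD0 hX1)),
      rootMultiplicity_mul (mul_ne_zero hD0 hX1),
      rootMultiplicity_eq_zero (p := B) hB, rootMultiplicity_eq_zero (p := A) hA, hrm] at h7
    by_cases hT1 : T₀ = 1
    · exfalso
      subst hT1
      have h8 : cntP q ν N 1 = 0 := by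
        rw [← hrm]
        refine rootMultiplicity_eq_zero ?_
        rw [IsRoot.def, hone]
        exact hK
      have h9 : 0 < rootMultiplicity 1 (D - E * X) := by
        rw [rootMultiplicity_pos hN0, IsRoot.def, eval_sub, eval_mul, eval_X, hone, honeE, mul_one,
          sub_self]
      have h10 : rootMultiplicity 1 (1 - X : ℂ[X]) ≤ 1 := by
        have h11 : (1 - X : ℂ[X]) = C (-1) * (X - C 1) := by
          simp only [map_neg, map_one]
          ring
        rw [h11, rootMultiplicity_mul (by rw [← h11]; exact hX1), rootMultiplicity_C,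
          rootMultiplicity_X_sub_C_self]
      omega
    have h6 : (1 - X : ℂ[X]).eval T₀ ≠ 0 := by
      simp only [eval_sub, eval_one, eval_X]
      exact sub_ne_zero.2 (Ne.symm hT1)
    rw [rootMultiplicity_eq_zero (p := 1 - X) h6] at h7
    by_cases hT0 : T₀ = 0
    · exfalso
      subst hT0
      rw [hcnt0] at h7
      omega
    rcases Nat.lt_or_ge (cntP q ν M T₀) (cntP q ν N T₀) with hlt | hge
    · have h8 : rootMultiplicity T₀ (D - E * X) = cntP q ν M T₀ := by
        have h9 : D - E * X = (X - C T₀) ^ cntP q ν M T₀ *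
            ((X - C T₀) ^ (cntP q ν N T₀ - cntP q ν M T₀) * D1 - E1 * X) := by
          conv_lhs => rw [hD1, hE1, hrm, hrmE]
          have h10 : (X - C T₀) ^ cntP q ν N T₀ = (X - C T₀) ^ cntP q ν M T₀ *
              (X - C T₀) ^ (cntP q ν N T₀ - cntP q ν M T₀) := by
            rw [← pow_add]
            congr 1
            omega
          rw [h10]
          ring
        have h11 : ((X - C T₀) ^ (cntP q ν N T₀ - cntP q ν M T₀) * D1 - E1 * X).eval T₀ ≠ 0 := by
          simp only [eval_sub, eval_mul, eval_pow, eval_X, eval_C, sub_self]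
          rw [zero_pow (by omega), zero_mul, zero_sub]
          exact neg_ne_zero.2 (mul_ne_zero hE1e hT0)
        have h12 : ((X - C T₀) ^ (cntP q ν N T₀ - cntP q ν M T₀) * D1 - E1 * X) ≠ 0 := by
          intro h0
          rw [h0, eval_zero] at h11
          exact h11 rfl
        rw [h9, rootMultiplicity_mul (mul_ne_zero (pow_ne_zero _ (X_sub_C_ne_zero T₀)) h12),
          rootMultiplicity_X_sub_C_pow, rootMultiplicity_eq_zero h11, add_zero]
      omega
    · exfalso
      have h8 : cntP q ν N T₀ ≤ rootMultiplicity T₀ (D - E * X) := by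
        rw [le_rootMultiplicity_iff hN0]
        refine dvd_sub ?_ (Dvd.dvd.mul_right ?_ _)
        · rw [← hrm]
          exact pow_rootMultiplicity_dvd D T₀
        · refine dvd_trans (pow_dvd_pow _ hge) ?_
          rw [← hrmE]
          exact pow_rootMultiplicity_dvd E T₀
      omega
  · intro h
    have hT0 : T₀ ≠ 0 := by
      rintro rfl
      rw [hcnt0, hcnt0] at h
      omega
    have hT1 : T₀ ≠ 1 := by
      rintro rfl
      have h8 : cntP q ν N 1 = 0 := by
        rw [← hrm]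
        refine rootMultiplicity_eq_zero ?_
        rw [IsRoot.def, hone]
        exact hK
      omega
    refine ⟨(X - C T₀) ^ r * D1 - E1 * X, D1 * (1 - X), ?_, ?_, ?_⟩
    · simp only [eval_sub, eval_mul, eval_pow, eval_X, eval_C, sub_self]
      rw [zero_pow hr.ne', zero_mul, zero_sub]
      exact neg_ne_zero.2 (mul_ne_zero hE1e hT0)
    · rw [eval_mul]
      refine mul_ne_zero hD1e ?_
      simp only [eval_sub, eval_one, eval_X]
      exact sub_ne_zero.2 (Ne.symm hT1)
    · have hc : (((X - C T₀) ^ cntP q ν M T₀ : ℂ[X]) : PowerSeries ℂ) ≠ 0 := by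
        rw [Ne, Polynomial.coe_eq_zero_iff]
        exact pow_ne_zero _ (X_sub_C_ne_zero T₀)
      refine mul_left_cancel₀ hc ?_
      have h3 : (X - C T₀) ^ cntP q ν M T₀ * ((X - C T₀) ^ r * D1 - E1 * X) = D - E * X := by
        conv_rhs => rw [hD1, hE1, hrm, hrmE, h, pow_add]
        ring
      have h4 : (X - C T₀) ^ cntP q ν M T₀ * ((X - C T₀) ^ r * (D1 * (1 - X))) = D * (1 - X) := by
        conv_rhs => rw [hD1, hrm, h, pow_add]
        ring
      have h5 : (((X - C T₀) ^ cntP q ν M T₀ : ℂ[X]) : PowerSeries ℂ) *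
          (((X - C T₀) ^ r * (D1 * (1 - X)) : ℂ[X]) : PowerSeries ℂ) =
            ((D * (1 - X) : ℂ[X]) : PowerSeries ℂ) := by
        rw [← Polynomial.coe_mul, h4]
      rw [← Polynomial.coe_mul _ ((X - C T₀) ^ r * D1 - E1 * X), h3, ← hform, ← h5, mul_assoc]

/-- **The zeta function.** -/
theorem quot_complex (hν : ∀ i, 0 < ν i) (hf : QuotZeta q f ν N M) (s : ℂ) (hs : 0 < s.re) :
    igusaZeta q f s = ∏ i, ((q : ℂ) ^ ν i - ((q : ℂ) ^ (-s)) ^ M i) /
      ((q : ℂ) ^ ν i - ((q : ℂ) ^ (-s)) ^ N i) := by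
  have hT := norm_T_lt q hs
  set x : ℂ := (q : ℂ) ^ (-s) with hx
  have hx0 : x ≠ 0 := T_ne_zero q s
  have h1 := gen_igusa q f hs hT
  have h0 := quot_poincare hf
  rw [← poincare_same] at h0
  have h2 := gen_eval q f h0 hT
  simp only [eval_mul, eval_sub, eval_one, eval_X, eval_C] at h2
  have h3 : (Rc q ν N).eval x * igusaZeta q f s = (Rc q ν M).eval x := by
    refine mul_left_cancel₀ hx0 ?_
    linear_combination (Rc q ν N).eval x * h1 - h2
  have h4 : ∀ L : ι → ℕ, (Rc q ν L).eval x = ∏ i, ((q : ℂ) ^ ν i - x ^ L i) := by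
    intro L
    unfold Rc
    rw [eval_prod]
    refine Finset.prod_congr rfl fun i _ => ?_
    rw [eval_sub, eval_C, eval_pow, eval_X, Nat.cast_pow]
  have h5 : ∀ i, ((q : ℂ) ^ ν i - x ^ N i) ≠ 0 := by
    intro i h
    rw [sub_eq_zero] at h
    have h6 := congrArg norm h
    rw [norm_pow, norm_pow, Complex.norm_natCast] at h6
    have h7 : ‖x‖ ^ N i ≤ 1 := pow_le_one₀ (norm_nonneg _) hT.le
    have h8 : 1 < (q : ℝ) ^ ν i :=
      one_lt_pow₀ (by exact_mod_cast (Fact.out : q.Prime).one_lt) (hν i).ne'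
    linarith
  rw [Finset.prod_div_distrib, eq_div_iff (Finset.prod_ne_zero_iff.2 fun i _ => h5 i), ← h4,
    mul_comm, h3, h4]

/-- **The Poincaré series, written out.** -/
theorem quot_poincare' (hf : QuotZeta q f ν N M) :
    ((((∏ i, (C ((q : ℂ) ^ ν i) - X ^ N i)) * (1 - X) : ℂ[X])) : PowerSeries ℂ) * poincare q f =
        ((((∏ i, (C ((q : ℂ) ^ ν i) - X ^ N i)) -
          (∏ i, (C ((q : ℂ) ^ ν i) - X ^ M i)) * X : ℂ[X])) : PowerSeries ℂ) := by
  have h := quot_poincare hf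
  unfold Rc at h
  simp only [Nat.cast_pow] at h
  exact h

end Abs

section Gen2

variable {σ S T I : Type} [Fintype σ] [DecidableEq σ] [Fintype S] [DecidableEq S] [Fintype T]
  [DecidableEq T] [Fintype I] [DecidableEq I] {κ : S → Type} [∀ s, Fintype (κ s)]
  [∀ s, DecidableEq (κ s)]
  (g : (s : S) → κ s → MvPolynomial σ ℂ) (k : I → ℕ)
    (m : I → S → ℕ) (e : T → S → ℕ) (a : T → ℕ) (M : I ⊕ T → ℕ)
  (q : ℕ) [Fact q.Prime] {W : Type} [Fintype W] (f : MvPolynomial W ℤ)

/-- **Orders of poles and multiplicities of roots.** -/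
theorem quot_mult
    (hg : ∀ s, ∃ j, g s j ≠ 0)
    (hE : ∀ i, 0 < mulG m e a (Sum.inl i) → HasChart g (k i) (m i) (Occ e a))
    (hf : QuotZeta q f (nuG k T) (mulG m e a) M) (Z : ℂ → ℂ) (hZ : MeromorphicOn Z Set.univ)
    (hI : ∀ s : ℂ, 0 < s.re → Z s = igusaZeta q f s) (s₀ : ℂ)
    (h1 : Nat.card {i // 0 < mulG m e a (Sum.inl i) ∧
      ((q : ℂ) ^ (-s₀)) ^ mulG m e a (Sum.inl i) = (q : ℂ) ^ nuG k T (Sum.inl i)} ≤ 1) (b : ℂ[X])
    (hb0 : b ≠ 0)
    (hb : IsBFunction (powProd a fun t => mixFam g (e t)) b) :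
    ((-(b.rootMultiplicity (s₀.re : ℂ) : ℤ) : ℤ) : WithTop ℤ) ≤ meromorphicOrderAt Z s₀ := by
  rw [quot_order (nuG_pos k) hf Z hZ hI s₀]
  have h2 := dvd_gen g k m e a q hg hE ((q : ℂ) ^ (-s₀)) h1 b hb
  rw [← pw_cpow q s₀, pw_norm] at h2
  have h3 := (le_rootMultiplicity_iff hb0).2 h2
  rw [pw_cpow q s₀] at h3
  rw [WithTop.coe_le_coe]
  omega

theorem quot_zroot
    (hg : ∀ s, ∃ j, g s j ≠ 0)
    (hE : ∀ i, 0 < mulG m e a (Sum.inl i) → HasChart g (k i) (m i) (Occ e a))
    (hf : QuotZeta q f (nuG k T) (mulG m e a) M) (Z : ℂ → ℂ) (hZ : MeromorphicOn Z Set.univ)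
    (hI : ∀ s : ℂ, 0 < s.re → Z s = igusaZeta q f s) (s₀ : ℂ)
    (hs₀ : meromorphicOrderAt Z s₀ < 0) (b : ℂ[X])
    (hb : IsBFunction (powProd a fun t => mixFam g (e t)) b) :
    b.eval (s₀.re : ℂ) = 0 := by
  rw [quot_order (nuG_pos k) hf Z hZ hI s₀] at hs₀
  have h1 : 0 < cntP q (nuG k T) (mulG m e a) ((q : ℂ) ^ (-s₀)) := by
    have h2 : (-((cntP q (nuG k T) (mulG m e a) ((q : ℂ) ^ (-s₀)) : ℤ) -
        cntP q (nuG k T) M ((q : ℂ) ^ (-s₀)))) < 0 := by
      exact_mod_cast hs₀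
    omega
  have h3 := root_gen g k m e a q hg hE _ h1 b hb
  rw [← pw_cpow q s₀, pw_norm] at h3
  exact h3

/-- **The theorem for the Poincaré series.** -/
theorem quot_proot
    (hg : ∀ s, ∃ j, g s j ≠ 0)
    (hE : ∀ i, 0 < mulG m e a (Sum.inl i) → HasChart g (k i) (m i) (Occ e a))
    (hf : QuotZeta q f (nuG k T) (mulG m e a) M) (T₀ : ℂ) (r : ℕ)
    (hr : 0 < r) (h : Pool.Agent.W206.CU.IsPoleOfOrder (poincare q f) T₀ r) (b : ℂ[X])
    (hb : IsBFunction (powProd a fun t => mixFam g (e t)) b) :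
    b.eval ((-Real.log ‖T₀‖ / Real.log q : ℝ) : ℂ) = 0 := by
  have h1 := (quot_poles (nuG_pos k) hf T₀ r hr).1 h
  exact root_gen g k m e a q hg hE T₀ (by omega) b hb

end Gen2

end Pool.Agent.Run7.h827.NP
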