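import Pool.Agent.Run7.h827.NP.Int
import Pool.Agent.Run7.h827.NP.Rat
import Pool.Agent.Run7.h827.NE.Main

set_option autoImplicit false
set_option linter.unusedSectionVars false
set_option linter.unusedVariables false

/-! # Igusa zeta functions of forms over products of northeast ideals -/

namespace Pool.Agent.Run7.h827.NP

open MvPolynomial Pool.Agent.TH192.PA Pool.Agent.TH192.DT Pool.Agent.W427.SMC MeasureTheory
  Pool.Agent.Run7.h827.MP Pool.Agent.Run7.h827.HM Pool.Agent.Run7.h827.NE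
open scoped NNReal ENNReal

attribute [local instance] msZ bsZ

/-- The minor of the first `i + 1` rows and the columns `j + J 0, …, j + J i` of the generic matrix,
`c = (i, j)`, with integral coefficients. -/
noncomputable def neZ (m n : ℕ) (c : Cell m n) (J : NI c) : MvPolynomial (Fin m × Fin n) ℤ :=
  (Matrix.of fun i j : Fin ((c.1.1 : ℕ) + 1) =>
    (MvPolynomial.X ((⟨i, by have := i.2; have := c.1.1.2; omega⟩ : Fin m),
      (⟨(c.1.2 : ℕ) + (show Fin ((c.1.1 : ℕ) + 1) ↪o Fin (n - c.1.2) from J) j, by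
        have := ((show Fin ((c.1.1 : ℕ) + 1) ↪o Fin (n - c.1.2) from J) j).2; omega⟩ : Fin n)) :
      MvPolynomial (Fin m × Fin n) ℤ)).det

theorem map_neZ (m n : ℕ) (c : Cell m n) (J : NI c) :
    map (Int.castRingHom ℂ) (neZ m n c J) = neGen m n c J := by
  unfold neZ neGen nmin
  rw [RingHom.map_det]
  congr 1
  ext1 i j
  rw [RingHom.mapMatrix_apply, Matrix.map_apply, Matrix.of_apply, Matrix.of_apply]
  exact map_X _ _

section

variable {T : Type} [Fintype T] [DecidableEq T]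

theorem map_ne (m n : ℕ) (e : T → Cell m n → ℕ) (a : T → ℕ) :
    map (Int.castRingHom ℂ) (formZ (neZ m n) e a) = powProd a fun t => neProd m n (e t) := by
  rw [map_formZ]
  have h1 : (fun (s : Cell m n) (j : NI s) => map (Int.castRingHom ℂ) (neZ m n s j))
      = neGen m n := by
    funext s j
    exact map_neZ m n s j
  rw [h1]
  rfl

/-- The numbers of the numerator: `∑ t, a t * ∑ q, e t q`, the second sum over the `q = (i', j')` with
`i' ≥ i` and `j' > j`, for the cell `(i, j)`, and `0` for the strict transforms. -/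
def lowN (m n : ℕ) (e : T → Cell m n → ℕ) (a : T → ℕ) : Cell m n ⊕ T → ℕ :=
  Sum.elim (fun p => ∑ t, a t * ∑ q, e t q *
    if (p.1.1 : ℕ) ≤ q.1.1 ∧ (p.1.2 : ℕ) < q.1.2 then 1 else 0) fun _ => 0

end

theorem prod_cell {M : Type} [CommMonoid M] (m n : ℕ) (F : ℕ → ℕ → M) :
    ∏ c : Cell m n, F c.1.1 c.1.2
      = ∏ i ∈ Finset.range (min m n), ∏ j ∈ Finset.range (n - i), F i j := by
  have h1 : ∏ c : Cell m n, F c.1.1 c.1.2
      = ∏ p ∈ Finset.univ.filter (fun p : Fin m × Fin n => (p.1 : ℕ) + p.2 < n), F p.1 p.2 :=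
    (Finset.prod_subtype (Finset.univ.filter (fun p : Fin m × Fin n => (p.1 : ℕ) + p.2 < n))
      (fun p => by simp) (fun p : Fin m × Fin n => F p.1 p.2)).symm
  rw [h1, Finset.prod_filter, Fintype.prod_prod_type]
  have h2 : ∀ i : Fin m, (∏ j : Fin n, if (i : ℕ) + j < n then F i j else 1)
      = ∏ j ∈ Finset.range (n - i), F i j := by
    intro i
    rw [Finset.prod_range (fun j => if (i : ℕ) + j < n then F i j else 1) |>.symm,
      ← Finset.prod_filter]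
    refine Finset.prod_congr ?_ fun _ _ => rfl
    ext j
    simp only [Finset.mem_filter, Finset.mem_range]
    omega
  rw [Finset.prod_congr rfl fun i _ => h2 i,
    ← Finset.prod_range (fun i => ∏ j ∈ Finset.range (n - i), F i j)]
  symm
  refine Finset.prod_subset (fun i hi => ?_) fun i hi hi2 => ?_
  · simp only [Finset.mem_range] at hi ⊢
    omega
  · simp only [Finset.mem_range] at hi hi2
    have h3 : n - i = 0 := by omega
    rw [h3, Finset.range_zero, Finset.prod_empty]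

theorem sum_cell (m n : ℕ) (F : ℕ → ℕ → ℝ) :
    ∑ c : Cell m n, F c.1.1 c.1.2
      = ∑ i ∈ Finset.range (min m n), ∑ j ∈ Finset.range (n - i), F i j := by
  have h1 : ∑ c : Cell m n, F c.1.1 c.1.2
      = ∑ p ∈ Finset.univ.filter (fun p : Fin m × Fin n => (p.1 : ℕ) + p.2 < n), F p.1 p.2 :=
    (Finset.sum_subtype (Finset.univ.filter (fun p : Fin m × Fin n => (p.1 : ℕ) + p.2 < n))
      (fun p => by simp) (fun p : Fin m × Fin n => F p.1 p.2)).symm
  rw [h1, Finset.sum_filter, Fintype.sum_prod_type]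
  have h2 : ∀ i : Fin m, (∑ j : Fin n, if (i : ℕ) + j < n then F i j else 0)
      = ∑ j ∈ Finset.range (n - i), F i j := by
    intro i
    rw [Finset.sum_range (fun j => if (i : ℕ) + j < n then F i j else 0) |>.symm,
      ← Finset.sum_filter]
    refine Finset.sum_congr ?_ fun _ _ => rfl
    ext j
    simp only [Finset.mem_filter, Finset.mem_range]
    omega
  rw [Finset.sum_congr rfl fun i _ => h2 i,
    ← Finset.sum_range (fun i => ∑ j ∈ Finset.range (n - i), F i j)]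
  symm
  refine Finset.sum_subset (fun i hi => ?_) fun i hi hi2 => ?_
  · simp only [Finset.mem_range] at hi ⊢
    omega
  · simp only [Finset.mem_range] at hi hi2
    have h3 : n - i = 0 := by omega
    rw [h3, Finset.range_zero, Finset.sum_empty]

variable (q : ℕ) [Fact q.Prime]

theorem vR_prod (d : ℕ) : ∀ (σ : ℕ → ℝ) (_ : ∀ j, 0 ≤ σ j),
    (∏ j ∈ Finset.range d, ((q : ℝ) ^ (d - j) - (q : ℝ) ^ (-∑ l ∈ Finset.Ico j d, σ l))) *
        vR q d σ
      = ∏ j ∈ Finset.range d, ((q : ℝ) ^ (d - j) - (q : ℝ) ^ (-∑ l ∈ Finset.Ico (j + 1) d, σ l)) := by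
  induction d with
  | zero =>
    intro σ _
    simp [vR]
  | succ d ih =>
    intro σ hσ
    have h1 := ih (fun j => σ (j + 1)) fun j => hσ _
    rw [vR, Finset.prod_range_succ', Finset.prod_range_succ']
    have h2 : ∀ j, ∑ l ∈ Finset.Ico (j + 1) (d + 1), σ l = ∑ l ∈ Finset.Ico j d, σ (l + 1) :=
      fun j => (Finset.sum_Ico_add' σ j d 1).symm
    simp only [Nat.add_sub_add_right, h2, Nat.sub_zero]
    rw [← Finset.range_eq_Ico, ← Finset.range_eq_Ico, ← h1]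
    have h3 : ((q : ℝ) ^ (d + 1) - (q : ℝ) ^ (-∑ j ∈ Finset.range (d + 1), σ j)) ≠ 0 :=
      (pow_sub_pos q d _ (Finset.sum_nonneg fun j _ => hσ j)).ne'
    field_simp

theorem nG_ne {m n : ℕ} (x : Fin m × Fin n → ℤ_[q]) (c : Cell m n) :
    nG q (neZ m n) x c = DD ((c.1.1 : ℕ) + 1) (blk c.1.2 (rowsOf q x)) := by
  unfold nG DD
  have h1 : ∀ J : NI c, aeval x (neZ m n c J) = (Matrix.of fun i j : Fin ((c.1.1 : ℕ) + 1) =>
      blk (c.1.2 : ℕ) (rowsOf q x) i
        ((show Fin ((c.1.1 : ℕ) + 1) ↪o Fin (n - c.1.2) from J) j)).det := by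
    intro J
    unfold neZ
    rw [AlgHom.map_det]
    congr 1
    ext1 i j
    rw [AlgHom.mapMatrix_apply, Matrix.map_apply, Matrix.of_apply, Matrix.of_apply, aeval_X]
    unfold blk rowsOf
    rw [dif_pos (show (i : ℕ) < m by have := i.2; have := c.1.1.2; omega)]
    congr 2
    exact Fin.ext (Nat.add_comm _ _)
  simp only [h1]
  rfl

section

variable {T : Type} [Fintype T] [DecidableEq T]

/-- the exponents -/
noncomputable def ex {m n : ℕ} (w : Cell m n → ℝ) (i j : ℕ) : ℝ :=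
  if h : i < m ∧ j < n ∧ i + j < n then w ⟨(⟨i, h.1⟩, ⟨j, h.2.1⟩), h.2.2⟩ else 0

theorem ex_cell {m n : ℕ} (w : Cell m n → ℝ) (c : Cell m n) : ex w c.1.1 c.1.2 = w c := by
  unfold ex
  rw [dif_pos ⟨c.1.1.2, c.1.2.2, c.2⟩]

theorem ex_nonneg {m n : ℕ} (w : Cell m n → ℝ) (hw : ∀ c, 0 ≤ w c) (i j : ℕ) : 0 ≤ ex w i j := by
  unfold ex
  split_ifs with h
  · exact hw _
  · exact le_rfl

theorem ex_zero {m n : ℕ} (w : Cell m n → ℝ) (i j : ℕ) (h : n ≤ i + j) : ex w i j = 0 :=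
  dif_neg fun h1 => by omega

theorem sum_ex {m n : ℕ} (w : Cell m n → ℝ) (i j : ℕ) :
    ∑ l ∈ Finset.Ico j (n - i), ∑ k ∈ Finset.Ico i (min m n), ex w k l
      = ∑ c : Cell m n, if i ≤ (c.1.1 : ℕ) ∧ j ≤ (c.1.2 : ℕ) then w c else 0 := by
  have h1 : ∀ c : Cell m n, (if i ≤ (c.1.1 : ℕ) ∧ j ≤ (c.1.2 : ℕ) then w c else 0)
      = (fun k l => if i ≤ k ∧ j ≤ l then ex w k l else 0) (c.1.1 : ℕ) (c.1.2 : ℕ) := by
    intro c
    simp only [ex_cell]
  rw [Finset.sum_congr rfl fun c _ => h1 c,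
    sum_cell m n fun k l => if i ≤ k ∧ j ≤ l then ex w k l else 0, Finset.sum_comm]
  have h2 : ∀ k, (∑ l ∈ Finset.range (n - k), if i ≤ k ∧ j ≤ l then ex w k l else 0)
      = if i ≤ k then ∑ l ∈ Finset.Ico j (n - i), ex w k l else 0 := by
    intro k
    split_ifs with hk
    · simp only [hk, true_and]
      rw [← Finset.sum_filter]
      refine Finset.sum_subset (fun l hl => ?_) fun l hl hl2 => ?_
      · simp only [Finset.mem_filter, Finset.mem_range, Finset.mem_Ico] at hl ⊢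
        omega
      · simp only [Finset.mem_filter, Finset.mem_range, Finset.mem_Ico] at hl hl2
        exact ex_zero w _ _ (by omega)
    · refine Finset.sum_eq_zero fun l _ => if_neg fun h => hk h.1
  rw [Finset.sum_congr rfl fun k _ => h2 k, ← Finset.sum_filter]
  refine Finset.sum_congr ?_ fun _ _ => rfl
  ext k
  simp only [Finset.mem_filter, Finset.mem_range, Finset.mem_Ico]
  omega

theorem sum_mulN {m n : ℕ} (e : T → Cell m n → ℕ) (a : T → ℕ) (s : ℝ) (c : Cell m n) :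
    ∑ l ∈ Finset.Ico (c.1.2 : ℕ) (n - c.1.1), ∑ k ∈ Finset.Ico (c.1.1 : ℕ) (min m n),
      ex (fun c => s * ∑ t, (a t : ℝ) * e t c) k l = (mulN m n e a (Sum.inl c) : ℝ) * s := by
  classical
  rw [sum_ex]
  change _ = ((∑ t, a t * ∑ c', e t c' * (if le c c' then 1 else 0) : ℕ) : ℝ) * s
  push_cast
  simp only [Finset.mul_sum, Finset.sum_mul]
  rw [Finset.sum_comm]
  refine Finset.sum_congr rfl fun c' _ => ?_
  by_cases h : le c c'
  · rw [if_pos (show (c.1.1 : ℕ) ≤ c'.1.1 ∧ (c.1.2 : ℕ) ≤ c'.1.2 from h)]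
    refine Finset.sum_congr rfl fun t _ => ?_
    rw [if_pos h]
    ring
  · rw [if_neg (show ¬ ((c.1.1 : ℕ) ≤ c'.1.1 ∧ (c.1.2 : ℕ) ≤ c'.1.2) from h)]
    symm
    refine Finset.sum_eq_zero fun t _ => ?_
    rw [if_neg h]
    ring

theorem sum_lowN {m n : ℕ} (e : T → Cell m n → ℕ) (a : T → ℕ) (s : ℝ) (c : Cell m n) :
    ∑ l ∈ Finset.Ico ((c.1.2 : ℕ) + 1) (n - c.1.1), ∑ k ∈ Finset.Ico (c.1.1 : ℕ) (min m n),
      ex (fun c => s * ∑ t, (a t : ℝ) * e t c) k l = (lowN m n e a (Sum.inl c) : ℝ) * s := by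
  classical
  rw [sum_ex]
  change _ = ((∑ t, a t * ∑ c', e t c' *
    (if (c.1.1 : ℕ) ≤ c'.1.1 ∧ (c.1.2 : ℕ) < c'.1.2 then 1 else 0) : ℕ) : ℝ) * s
  push_cast
  simp only [Finset.mul_sum, Finset.sum_mul]
  rw [Finset.sum_comm]
  refine Finset.sum_congr rfl fun c' _ => ?_
  by_cases h : (c.1.1 : ℕ) ≤ c'.1.1 ∧ (c.1.2 : ℕ) < c'.1.2
  · rw [if_pos (show (c.1.1 : ℕ) ≤ c'.1.1 ∧ (c.1.2 : ℕ) + 1 ≤ c'.1.2 from h)]
    refine Finset.sum_congr rfl fun t _ => ?_
    rw [if_pos h]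
    ring
  · rw [if_neg (show ¬ ((c.1.1 : ℕ) ≤ c'.1.1 ∧ (c.1.2 : ℕ) + 1 ≤ c'.1.2) from h)]
    symm
    refine Finset.sum_eq_zero fun t _ => ?_
    rw [if_neg h]
    ring

/-- **The formula for the zeta function.** -/
theorem igusa_ne (m n : ℕ) (e : T → Cell m n → ℕ) (a : T → ℕ) (s : ℝ) (hs : 0 < s) :
    (∏ x : Cell m n ⊕ T, (((q : ℝ) ^ nuN m n T x) - ((q : ℝ) ^ (-s)) ^ mulN m n e a x)) *
      (∫⁻ z, tau q s (aeval z (formZ (neZ m n) e a)) ∂(hm q _)).toReal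
      = ∏ x : Cell m n ⊕ T, ((q : ℝ) ^ nuN m n T x - ((q : ℝ) ^ (-s)) ^ lowN m n e a x) := by
  have hq0 : (0 : ℝ) < q := by exact_mod_cast (Fact.out : q.Prime).pos
  have hc0 : ∀ c : Cell m n, Nonempty (NI c) := fun c =>
    ⟨Fin.castLEOrderEmb (show (c.1.1 : ℕ) + 1 ≤ n - c.1.2 by have := c.2; omega)⟩
  rw [igusa_form q (neZ m n) hc0 e a s hs]
  set w : Cell m n → ℝ := fun c => s * ∑ t, (a t : ℝ) * e t c with hw
  have hw0 : ∀ c, 0 ≤ w c := fun c => by
    rw [hw]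
    positivity
  have h1 : ∀ x : Fin m × Fin n → ℤ_[q], ∏ c, ((nG q (neZ m n) x c : ℝ≥0) : ℝ≥0∞) ^
      (s * ∑ t, (a t : ℝ) * e t c)
      = ∏ i ∈ Finset.range (min m n), ∏ j ∈ Finset.range (n - i),
        ((DD (i + 1) (blk j (rowsOf q x)) : ℝ≥0) : ℝ≥0∞) ^ ex w i j := by
    intro x
    rw [← prod_cell m n fun i j => ((DD (i + 1) (blk j (rowsOf q x)) : ℝ≥0) : ℝ≥0∞) ^ ex w i j]
    refine Finset.prod_congr rfl fun c _ => ?_
    rw [nG_ne, ex_cell]
  simp only [h1]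
  rw [int_NE q (min m n) (min_le_left _ _) (min_le_right _ _) (ex w) (ex_nonneg w hw0)
    (fun i j h => ex_zero w i j h), ENNReal.toReal_mul, ENNReal.toReal_prod, ENNReal.toReal_prod,
    Fintype.prod_sum_type, Fintype.prod_sum_type, mul_mul_mul_comm, ← Finset.prod_mul_distrib]
  have hpow : ∀ N : ℕ, ((q : ℝ) ^ (-s)) ^ N = (q : ℝ) ^ (-((N : ℝ) * s)) := by
    intro N
    rw [← Real.rpow_natCast, ← Real.rpow_mul hq0.le]
    congr 1
    ring
  congr 1
  · have h2 : ∀ c : Cell m n, (q : ℝ) ^ nuN m n T (Sum.inl c) -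
        ((q : ℝ) ^ (-s)) ^ mulN m n e a (Sum.inl c)
        = (fun i j => (q : ℝ) ^ (n - i - j) - (q : ℝ) ^ (-∑ l ∈ Finset.Ico j (n - i),
          ∑ k ∈ Finset.Ico i (min m n), ex w k l)) (c.1.1 : ℕ) (c.1.2 : ℕ) := by
      intro c
      change _ = (q : ℝ) ^ (n - (c.1.1 : ℕ) - c.1.2) - (q : ℝ) ^ (-∑ l ∈ Finset.Ico (c.1.2 : ℕ)
        (n - c.1.1), ∑ k ∈ Finset.Ico (c.1.1 : ℕ) (min m n), ex w k l)
      rw [sum_mulN e a s c, hpow]
      congr 2
      change n - 1 - (c.1.1 : ℕ) - c.1.2 + 1 = _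
      have := c.2
      omega
    have h3 : ∀ c : Cell m n, (q : ℝ) ^ nuN m n T (Sum.inl c) -
        ((q : ℝ) ^ (-s)) ^ lowN m n e a (Sum.inl c)
        = (fun i j => (q : ℝ) ^ (n - i - j) - (q : ℝ) ^ (-∑ l ∈ Finset.Ico (j + 1) (n - i),
          ∑ k ∈ Finset.Ico i (min m n), ex w k l)) (c.1.1 : ℕ) (c.1.2 : ℕ) := by
      intro c
      change _ = (q : ℝ) ^ (n - (c.1.1 : ℕ) - c.1.2) - (q : ℝ) ^ (-∑ l ∈ Finset.Ico
        ((c.1.2 : ℕ) + 1) (n - c.1.1), ∑ k ∈ Finset.Ico (c.1.1 : ℕ) (min m n), ex w k l)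
      rw [sum_lowN e a s c, hpow]
      congr 2
      change n - 1 - (c.1.1 : ℕ) - c.1.2 + 1 = _
      have := c.2
      omega
    rw [Finset.prod_congr rfl fun c _ => h2 c, Finset.prod_congr rfl fun c _ => h3 c,
      prod_cell m n (fun i j => (q : ℝ) ^ (n - i - j) - (q : ℝ) ^ (-∑ l ∈ Finset.Ico j (n - i),
          ∑ k ∈ Finset.Ico i (min m n), ex w k l)),
      prod_cell m n (fun i j => (q : ℝ) ^ (n - i - j) - (q : ℝ) ^ (-∑ l ∈ Finset.Ico (j + 1)
        (n - i), ∑ k ∈ Finset.Ico i (min m n), ex w k l)), ← Finset.prod_mul_distrib]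
    refine Finset.prod_congr rfl fun i _ => ?_
    have hσ : ∀ j, 0 ≤ ∑ l ∈ Finset.Ico i (min m n), ex w l j := fun j =>
      Finset.sum_nonneg fun l _ => ex_nonneg w hw0 _ _
    rw [ENNReal.toReal_ofReal (vR_pos q _ _ hσ).le]
    exact vR_prod q (n - i) _ hσ
  · refine Finset.prod_congr rfl fun t _ => ?_
    change ((q : ℝ) ^ 1 - ((q : ℝ) ^ (-s)) ^ a t) * _ = (q : ℝ) ^ 1 - ((q : ℝ) ^ (-s)) ^ 0
    rw [hpow, pow_one, pow_zero]
    exact phi_eq q _ (by positivity)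

/-- **The zeta function is a product of quotients.** -/
theorem ne_quot (m n : ℕ) (e : T → Cell m n → ℕ) (a : T → ℕ) :
    QuotZeta q (formZ (neZ m n) e a) (nuN m n T) (mulN m n e a) (lowN m n e a) := by
  intro s hs
  have h1 := congrArg (fun r : ℝ => (r : ℂ)) (igusa_ne q m n e a s hs)
  rw [hm_igusa, pw_real]
  have h2 : ∀ L : Cell m n ⊕ T → ℕ, (Rc q (nuN m n T) L).eval ((tr' q s : ℝ) : ℂ)
      = ((∏ x : Cell m n ⊕ T, (((q : ℝ) ^ nuN m n T x) - ((q : ℝ) ^ (-s)) ^ L x) : ℝ) : ℂ) := by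
    intro L
    unfold Rc
    rw [Polynomial.eval_prod]
    push_cast
    refine Finset.prod_congr rfl fun x _ => ?_
    rw [Polynomial.eval_sub, Polynomial.eval_C, Polynomial.eval_pow, Polynomial.eval_X]
    rfl
  rw [h2, h2, ← Complex.ofReal_mul]
  exact h1

end

end Pool.Agent.Run7.h827.NP
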