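import Pool.Agent.Run7.h827.NP.Row

set_option autoImplicit false
set_option linter.unusedSectionVars false
set_option linter.unusedVariables false

/-! # The integral of the norms of the northeast minors of a `p`-adic matrix -/

namespace Pool.Agent.Run7.h827.NP

open Matrix Pool.Agent.TH192.PA Pool.Agent.W427.SMC MeasureTheory Pool.Agent.Run7.h827.MP
open scoped NNReal ENNReal

attribute [local instance] msZ bsZ

variable (q : ℕ) [Fact q.Prime]

/-- the minor of the first `k` rows and the columns `j, …, j + k - 1` -/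
noncomputable def mpol {m n : ℕ} (k j : ℕ) (hk : k ≤ m) (hj : k + j ≤ n) :
    MvPolynomial (Fin m × Fin n) ℤ :=
  (Matrix.of fun i c : Fin k => (MvPolynomial.X ((⟨i, by have := i.2; omega⟩ : Fin m),
    (⟨c + j, by have := c.2; omega⟩ : Fin n)) : MvPolynomial (Fin m × Fin n) ℤ)).det

theorem aeval_mpol {m n : ℕ} {R : Type} [CommRing R] (x : Fin m × Fin n → R) (k j : ℕ)
    (hk : k ≤ m) (hj : k + j ≤ n) :
    MvPolynomial.aeval x (mpol k j hk hj) = (Matrix.of fun i c : Fin k =>
      x ((⟨i, by have := i.2; omega⟩ : Fin m), (⟨c + j, by have := c.2; omega⟩ : Fin n))).det := by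
  rw [mpol, AlgHom.map_det]
  congr 1
  ext1 i c
  rw [AlgHom.mapMatrix_apply, Matrix.map_apply, Matrix.of_apply, Matrix.of_apply,
    MvPolynomial.aeval_X]

theorem mpol_ne {m n : ℕ} (k j : ℕ) (hk : k ≤ m) (hj : k + j ≤ n) : mpol k j hk hj ≠ 0 := by
  intro h
  have h1 := aeval_mpol (fun p : Fin m × Fin n => if (p.2 : ℕ) = p.1 + j then (1 : ℤ) else 0)
    k j hk hj
  rw [h, map_zero] at h1
  have h2 : (Matrix.of fun i c : Fin k => if ((⟨c + j, by have := c.2; omega⟩ : Fin n) : ℕ) =
      ((⟨i, by have := i.2; omega⟩ : Fin m) : ℕ) + j then (1 : ℤ) else 0) = 1 := by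
    ext1 i c
    rw [Matrix.of_apply, Matrix.one_apply]
    change (if (c : ℕ) + j = (i : ℕ) + j then (1 : ℤ) else 0) = _
    refine if_congr ?_ rfl rfl
    rw [Fin.ext_iff]
    omega
  rw [h2, Matrix.det_one] at h1
  exact zero_ne_one h1

theorem ae_DD {m n : ℕ} (k : ℕ) (hk : k ≤ m) (hkn : k ≤ n) :
    ∀ᵐ Y ∂(hm q (Fin m × Fin n)), ∀ j, j < n - k → DD k (blk j (rowsOf q Y)) ≠ 0 := by
  rw [ae_all_iff]
  intro j
  by_cases hj : j < n - k
  · have hj' : k + j ≤ n := by omega
    filter_upwards [ae_ne q (mpol k j hk hj') (mpol_ne k j hk hj')] with Y hY _ h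
    apply hY
    rw [aeval_mpol]
    have h1 : ‖(Matrix.of fun i l : Fin k => blk j (rowsOf q Y) i
        ((Fin.castLEOrderEmb (show k ≤ n - j by omega)) l)).det‖₊ ≤ 0 := by
      rw [← h]
      exact Finset.le_sup (f := fun c : Fin k ↪o Fin (n - j) =>
        ‖(Matrix.of fun i l : Fin k => blk j (rowsOf q Y) i (c l)).det‖₊) (Finset.mem_univ _)
    have h2 := nnnorm_eq_zero.1 (le_antisymm h1 bot_le)
    rw [← h2]
    congr 1
    ext1 i c
    rw [Matrix.of_apply, Matrix.of_apply]
    unfold blk rowsOf
    rw [dif_pos (lt_of_lt_of_le i.2 hk)]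
    rfl
  · exact Filter.Eventually.of_forall fun Y h => absurd h hj

theorem cont_blk {m n : ℕ} (j i : ℕ) (c : Fin (n - j)) :
    Continuous fun x : Fin m × Fin n → ℤ_[q] => blk j (rowsOf q x) i c :=
  cont_rowsOf q i _

theorem meas_blk {m n : ℕ} (k j : ℕ) (σ : ℝ) :
    Measurable fun x : Fin m × Fin n → ℤ_[q] =>
      ((DD k (blk j (rowsOf q x)) : ℝ≥0) : ℝ≥0∞) ^ σ :=
  meas_DD q k _ (fun i c => cont_blk q j i c) σ

theorem meas_all {m n : ℕ} (k : ℕ) (a : ℕ → ℕ → ℝ) :
    Measurable fun x : Fin m × Fin n → ℤ_[q] => ∏ i ∈ Finset.range k, ∏ j ∈ Finset.range (n - i),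
      ((DD (i + 1) (blk j (rowsOf q x)) : ℝ≥0) : ℝ≥0∞) ^ a i j :=
  Finset.measurable_prod _ fun i _ => Finset.measurable_prod _ fun j _ => meas_blk q _ _ _

/-- Integration over a block of variables, up to a null set. -/
theorem lintegral_block_ae {ι : Type} [Fintype ι] [DecidableEq ι] (s : Finset ι)
    (f : (ι → ℤ_[q]) → ℝ≥0∞) (hf : Measurable f) (g : (ι → ℤ_[q]) → ℝ≥0∞)
    (h : ∀ᵐ x ∂(hm q ι),
      ∫⁻ y : (i : s) → ℤ_[q], f (Function.updateFinset x s y) ∂(hm q s) = g x) :
    ∫⁻ x, f x ∂(hm q ι) = ∫⁻ x, g x ∂(hm q ι) := by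
  have h1 := lintegral_block q s f hf (∫⋯∫⁻_s, f ∂(fun _ => mu q))
    (Measurable.lmarginal _ hf) (fun x => rfl)
  rw [h1]
  refine lintegral_congr_ae ?_
  filter_upwards [h] with x hx
  exact hx

/-- **The integral of the norms of the northeast minors.** -/
theorem int_NE {m n : ℕ} (k : ℕ) (hk : k ≤ m) (hkn : k ≤ n) (a : ℕ → ℕ → ℝ)
    (ha : ∀ i j, 0 ≤ a i j) (ha0 : ∀ i j, n ≤ i + j → a i j = 0) :
    ∫⁻ Y : Fin m × Fin n → ℤ_[q], ∏ i ∈ Finset.range k, ∏ j ∈ Finset.range (n - i),
      ((DD (i + 1) (blk j (rowsOf q Y)) : ℝ≥0) : ℝ≥0∞) ^ a i j ∂(hm q (Fin m × Fin n))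
      = ∏ i ∈ Finset.range k,
        ENNReal.ofReal (vR q (n - i) fun j => ∑ l ∈ Finset.Ico i k, a l j) := by
  classical
  induction k generalizing a with
  | zero => simp
  | succ k ih =>
    have hkm : k < m := hk
    set kk : Fin m := ⟨k, hkm⟩ with hkk
    set s : Finset (Fin m × Fin n) := Finset.univ.filter fun p => p.1 = kk with hs
    have hmem : ∀ j : Fin n, (kk, j) ∈ s := fun j => Finset.mem_filter.2 ⟨Finset.mem_univ _, rfl⟩
    let r : Fin n ≃ s :=
      { toFun := fun j => ⟨(kk, j), hmem j⟩
        invFun := fun p => p.1.2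
        left_inv := fun j => rfl
        right_inv := fun p => by
          have h1 := (Finset.mem_filter.1 p.2).2
          exact Subtype.ext (Prod.ext h1.symm rfl) }
    have hrow : ∀ (x : Fin m × Fin n → ℤ_[q]) (y : s → ℤ_[q]) (i : ℕ), i < k →
        rowsOf q (Function.updateFinset x s y) i = rowsOf q x i := by
      intro x y i hi
      funext j
      unfold rowsOf
      rw [dif_pos (hi.trans hkm), dif_pos (hi.trans hkm), Function.updateFinset, dif_neg]
      intro h1
      have h2 := congrArg Fin.val (Finset.mem_filter.1 h1).2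
      change i = k at h2
      omega
    have hrowk : ∀ (x : Fin m × Fin n → ℤ_[q]) (y : s → ℤ_[q]),
        rowsOf q (Function.updateFinset x s y) k = fun l => y (r l) := by
      intro x y
      funext j
      unfold rowsOf
      rw [dif_pos hkm, Function.updateFinset, dif_pos (hmem j)]
      rfl
    have hDDlow : ∀ (x : Fin m × Fin n → ℤ_[q]) (y : s → ℤ_[q]) (i j : ℕ), i ≤ k →
        DD i (blk j (rowsOf q (Function.updateFinset x s y))) = DD i (blk j (rowsOf q x)) := by
      intro x y i j hi
      refine DD_congr q (fun l hl => ?_)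
      funext c
      unfold blk
      rw [hrow x y l (by omega)]
    have hDDk : ∀ (x : Fin m × Fin n → ℤ_[q]) (y : s → ℤ_[q]) (j : ℕ),
        DD (k + 1) (blk j (rowsOf q (Function.updateFinset x s y)))
          = DD (k + 1) (blk j (upd (rowsOf q x) k fun l => y (r l))) := by
      intro x y j
      refine DD_congr q (fun l hl => ?_)
      funext c
      unfold blk upd
      by_cases h : l = k
      · rw [if_pos h, h, hrowk]
      · rw [if_neg h, hrow x y l (by omega)]
    have hstep := lintegral_block_ae q s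
      (fun Y => ∏ i ∈ Finset.range (k + 1), ∏ j ∈ Finset.range (n - i),
        ((DD (i + 1) (blk j (rowsOf q Y)) : ℝ≥0) : ℝ≥0∞) ^ a i j)
      (meas_all q (k + 1) a)
      (fun Y => (∏ i ∈ Finset.range k, ∏ j ∈ Finset.range (n - i),
        ((DD (i + 1) (blk j (rowsOf q Y)) : ℝ≥0) : ℝ≥0∞) ^ a i j) *
        ((∏ j ∈ Finset.range (n - k), ((DD k (blk j (rowsOf q Y)) : ℝ≥0) : ℝ≥0∞) ^ a k j) *
          ENNReal.ofReal (vR q (n - k) (a k)))) ?_
    · rw [hstep]
      rcases Nat.eq_zero_or_pos k with h0 | h0
      · subst h0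
        simp [DD_zero]
      · obtain ⟨k', rfl⟩ := Nat.exists_eq_succ_of_ne_zero h0.ne'
        set a' : ℕ → ℕ → ℝ := fun i j => if i = k' then a k' j + a (k' + 1) j else a i j with ha'
        have h1 := ih (by omega) (by omega) a' (fun i j => by
          rw [ha']
          change 0 ≤ if i = k' then a k' j + a (k' + 1) j else a i j
          split_ifs
          · exact add_nonneg (ha _ _) (ha _ _)
          · exact ha i j) (fun i j hij => by
          rw [ha']
          change (if i = k' then a k' j + a (k' + 1) j else a i j) = 0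
          split_ifs with h
          · subst h
            rw [ha0 _ _ hij, ha0 _ _ (by omega), add_zero]
          · exact ha0 i j hij)
        have h2 : ∀ Y : Fin m × Fin n → ℤ_[q],
            (∏ i ∈ Finset.range (k' + 1), ∏ j ∈ Finset.range (n - i),
              ((DD (i + 1) (blk j (rowsOf q Y)) : ℝ≥0) : ℝ≥0∞) ^ a i j) *
            ((∏ j ∈ Finset.range (n - (k' + 1)),
              ((DD (k' + 1) (blk j (rowsOf q Y)) : ℝ≥0) : ℝ≥0∞) ^ a (k' + 1) j) *
              ENNReal.ofReal (vR q (n - (k' + 1)) (a (k' + 1))))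
            = (∏ i ∈ Finset.range (k' + 1), ∏ j ∈ Finset.range (n - i),
              ((DD (i + 1) (blk j (rowsOf q Y)) : ℝ≥0) : ℝ≥0∞) ^ a' i j) *
              ENNReal.ofReal (vR q (n - (k' + 1)) (a (k' + 1))) := by
          intro Y
          rw [← mul_assoc, Finset.prod_range_succ, Finset.prod_range_succ]
          congr 1
          have h3 : ∀ i ∈ Finset.range k', (∏ j ∈ Finset.range (n - i),
              ((DD (i + 1) (blk j (rowsOf q Y)) : ℝ≥0) : ℝ≥0∞) ^ a' i j)
              = ∏ j ∈ Finset.range (n - i),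
              ((DD (i + 1) (blk j (rowsOf q Y)) : ℝ≥0) : ℝ≥0∞) ^ a i j := by
            intro i hi
            refine Finset.prod_congr rfl fun j _ => ?_
            rw [ha']
            change _ ^ (if i = k' then a k' j + a (k' + 1) j else a i j) = _
            rw [if_neg (Finset.mem_range.1 hi).ne]
          rw [Finset.prod_congr rfl h3, mul_assoc]
          congr 1
          have h4 : n - k' = n - (k' + 1) + 1 := by omega
          rw [h4, Finset.prod_range_succ, Finset.prod_range_succ]
          have h5 : ∀ j, ((DD (k' + 1) (blk j (rowsOf q Y)) : ℝ≥0) : ℝ≥0∞) ^ a' k' j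
              = ((DD (k' + 1) (blk j (rowsOf q Y)) : ℝ≥0) : ℝ≥0∞) ^ a k' j *
                ((DD (k' + 1) (blk j (rowsOf q Y)) : ℝ≥0) : ℝ≥0∞) ^ a (k' + 1) j := by
            intro j
            rw [ha']
            change _ ^ (if k' = k' then a k' j + a (k' + 1) j else a k' j) = _
            rw [if_pos rfl, ENNReal.rpow_add_of_nonneg _ _ (ha _ _) (ha _ _)]
          simp only [h5]
          rw [ha0 (k' + 1) (n - (k' + 1)) (by omega), ENNReal.rpow_zero, mul_one,
            Finset.prod_mul_distrib]
          ring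
        simp only [h2]
        rw [lintegral_mul_const _ (meas_all q (k' + 1) a'), h1, Finset.prod_range_succ _ (k' + 1)]
        congr 1
        · refine Finset.prod_congr rfl fun i hi => ?_
          have hi' : i ≤ k' := Nat.lt_succ_iff.1 (Finset.mem_range.1 hi)
          congr 2
          funext j
          rw [Finset.sum_Ico_succ_top (by omega : i ≤ k'),
            Finset.sum_Ico_succ_top (by omega : i ≤ k' + 1),
            Finset.sum_Ico_succ_top (by omega : i ≤ k'), add_assoc]
          congr 1
          · refine Finset.sum_congr rfl fun l hl => ?_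
            have hl' := (Finset.mem_Ico.1 hl).2
            rw [ha']
            change (if l = k' then _ else a l j) = a l j
            rw [if_neg hl'.ne]
          · rw [ha']
            change (if k' = k' then _ else a k' j) = _
            rw [if_pos rfl]
        · congr 2
          funext j
          rw [Nat.Ico_succ_singleton, Finset.sum_singleton]
    · filter_upwards [ae_DD q (m := m) (n := n) k hkm.le (by omega)] with x hx
      have h1 : ∀ y : s → ℤ_[q], ∏ i ∈ Finset.range (k + 1), ∏ j ∈ Finset.range (n - i),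
          ((DD (i + 1) (blk j (rowsOf q (Function.updateFinset x s y))) : ℝ≥0) : ℝ≥0∞) ^ a i j
          = (∏ i ∈ Finset.range k, ∏ j ∈ Finset.range (n - i),
            ((DD (i + 1) (blk j (rowsOf q x)) : ℝ≥0) : ℝ≥0∞) ^ a i j) *
            ∏ j ∈ Finset.range (n - k), ((DD (k + 1)
              (blk j (upd (rowsOf q x) k fun l => y (r l))) : ℝ≥0) : ℝ≥0∞) ^ a k j := by
        intro y
        rw [Finset.prod_range_succ]
        congr 1
        · refine Finset.prod_congr rfl fun i hi => ?_
          have hi' := Finset.mem_range.1 hi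
          refine Finset.prod_congr rfl fun j _ => ?_
          rw [hDDlow x y (i + 1) j (by omega)]
        · refine Finset.prod_congr rfl fun j _ => ?_
          rw [hDDk x y j]
      simp only [h1]
      rw [lintegral_const_mul, row_int r (rowsOf q x) k hx (a k) (ha k)]
      refine Finset.measurable_prod _ fun j _ => ?_
      refine meas_DD q (k + 1) _ (fun i c => ?_) _
      unfold blk upd
      by_cases h : i = k
      · simp only [if_pos h]
        exact continuous_apply _
      · simp only [if_neg h]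
        exact continuous_const

end Pool.Agent.Run7.h827.NP
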