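import Pool.Agent.Run7.h827.NP.Flag
import Pool.Agent.TH192.PA.Poinc

set_option autoImplicit false
set_option linter.unusedSectionVars false
set_option linter.unusedVariables false

/-! # The norms of the northeast minors and one more row -/

namespace Pool.Agent.Run7.h827.NP

open Matrix Pool.Agent.TH192.PA Pool.Agent.W427.SMC MeasureTheory Pool.Agent.Run7.h827.MP
open scoped NNReal ENNReal

attribute [local instance] msZ bsZ

variable (q : ℕ) [Fact q.Prime]

/-- a polynomial which is not zero vanishes nowhere outside of a null set -/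
theorem ae_ne {V : Type} [Fintype V] (F : MvPolynomial V ℤ) (hF : F ≠ 0) :
    ∀ᵐ x ∂(hm q V), MvPolynomial.aeval x F ≠ 0 := by
  have hh : Pool.Agent.W206.CU.hm q V = hm q V := hm_unique q _
  rw [ae_iff]
  have h1 : ∀ M : ℕ, (hm q V {x | ¬ (MvPolynomial.aeval x F : ℤ_[q]) ≠ 0}).toReal ≤
      ((Pool.Agent.W206.CU.dens q F M : ℚ) : ℝ) := by
    intro M
    rw [← Pool.Agent.W206.CU.measure_sol F M, hh]
    refine ENNReal.toReal_mono (measure_ne_top _ _) (measure_mono fun x hx => ?_)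
    have h2 : (MvPolynomial.aeval x F : ℤ_[q]) = 0 := not_not.1 hx
    change (q : ℤ_[q]) ^ M ∣ MvPolynomial.aeval x F
    rw [h2]
    exact dvd_zero _
  have h2 := ge_of_tendsto (null_gen (q := q) hF) (Filter.Eventually.of_forall h1)
  exact ((ENNReal.toReal_eq_zero_iff _).1 (le_antisymm h2 ENNReal.toReal_nonneg)).resolve_right
    (measure_ne_top _ _)

variable {q}

/-- the last `n - j` columns -/
def blk {n : ℕ} (j : ℕ) (Y : ℕ → Fin n → ℤ_[q]) (i : ℕ) (c : Fin (n - j)) : ℤ_[q] :=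
  Y i ⟨c + j, by have := c.2; omega⟩

/-- the columns `1, 2, …` -/
def sh {n : ℕ} (j : ℕ) : Fin (n - (j + 1)) ↪o Fin (n - j) :=
  OrderEmbedding.ofStrictMono (fun c => ⟨(c : ℕ) + 1, by have := c.2; omega⟩) (by
    intro a b hab
    change (a : ℕ) + 1 < (b : ℕ) + 1
    have : (a : ℕ) < b := hab
    omega)

theorem DD_blk_le {n : ℕ} (k j : ℕ) (Y : ℕ → Fin n → ℤ_[q]) :
    DD k (blk (j + 1) Y) ≤ DD k (blk j Y) := by
  unfold DD
  refine Finset.sup_le fun c _ => ?_
  refine le_trans (le_of_eq ?_) (Finset.le_sup (f := fun c : Fin k ↪o Fin (n - j) =>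
    ‖(Matrix.of fun i l : Fin k => blk j Y i (c l)).det‖₊)
    (Finset.mem_univ (c.trans (sh (n := n) j))))
  congr 2
  ext1 i l
  simp only [Matrix.of_apply]
  unfold blk
  congr 1
  apply Fin.ext
  change ((c l : ℕ) + (j + 1)) = ((c l : ℕ) + 1) + j
  omega

/-- the columns from `j` on -/
noncomputable def pj (q : ℕ) [Fact q.Prime] {n : ℕ} (j : ℕ) :
    (Fin n → ℤ_[q]) →ₗ[ℤ_[q]] (Fin (n - j) → ℤ_[q]) :=
  LinearMap.funLeft ℤ_[q] ℤ_[q] fun c => ⟨(c : ℕ) + j, by have := c.2; omega⟩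

theorem pj_surj {n : ℕ} (j : ℕ) : Function.Surjective (pj q (n := n) j) := by
  refine LinearMap.funLeft_surjective_of_injective _ _ _ fun a b hab => ?_
  have h1 := congrArg Fin.val hab
  apply Fin.ext
  change (a : ℕ) + j = (b : ℕ) + j at h1
  omega

/-- the entries from `k` on -/
noncomputable def pk (q : ℕ) [Fact q.Prime] {n : ℕ} (k : ℕ) :
    (Fin n → ℤ_[q]) →ₗ[ℤ_[q]] (Fin (n - k) → ℤ_[q]) :=
  LinearMap.funLeft ℤ_[q] ℤ_[q] fun c => ⟨k + (c : ℕ), by have := c.2; omega⟩

theorem pk_surj {n : ℕ} (k : ℕ) : Function.Surjective (pk q (n := n) k) := by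
  refine LinearMap.funLeft_surjective_of_injective _ _ _ fun a b hab => ?_
  have h1 := congrArg Fin.val hab
  apply Fin.ext
  change k + (a : ℕ) = k + (b : ℕ) at h1
  omega

theorem sup_pk {n : ℕ} (k : ℕ) (u : Fin n → ℤ_[q]) :
    ((Finset.univ.filter fun j : Fin n => k ≤ (j : ℕ)).sup fun j => ‖u j‖₊)
      = Finset.univ.sup fun i => ‖pk q k u i‖₊ := by
  refine le_antisymm (Finset.sup_le fun j hj => ?_) (Finset.sup_le fun j _ => ?_)
  · have hj1 := (Finset.mem_filter.1 hj).2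
    have hj2 := j.2
    refine le_trans (le_of_eq ?_) (Finset.le_sup (f := fun i => ‖pk q k u i‖₊)
      (Finset.mem_univ (⟨j - k, by omega⟩ : Fin (n - k))))
    have h3 : (⟨k + (j - k : ℕ), by omega⟩ : Fin n) = j := Fin.ext (by
      change k + ((j : ℕ) - k) = j
      omega)
    change _ = ‖u ⟨k + ((j : ℕ) - k), _⟩‖₊
    rw [h3]
  · have hj2 := j.2
    exact Finset.le_sup (f := fun j => ‖u j‖₊)
      (b := (⟨k + j, by omega⟩ : Fin n)) (Finset.mem_filter.2 ⟨Finset.mem_univ _,
        Nat.le_add_right _ _⟩)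

/-- the rows with the row `k` replaced -/
def upd {n : ℕ} (Y : ℕ → Fin n → ℤ_[q]) (k : ℕ) (y : Fin n → ℤ_[q]) (i : ℕ) : Fin n → ℤ_[q] :=
  if i = k then y else Y i

theorem DD_upd {n : ℕ} (Y : ℕ → Fin n → ℤ_[q]) (k : ℕ) (y : Fin n → ℤ_[q]) (j : ℕ) :
    DD k (blk j (upd Y k y)) = DD k (blk j Y) := by
  refine DD_congr q (fun i hi => ?_)
  funext c
  unfold blk upd
  rw [if_neg hi.ne]

/-- **The norms of the northeast minors with one more row form a flag.** -/
theorem row_flag {n : ℕ} (Y : ℕ → Fin n → ℤ_[q]) (k : ℕ)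
    (hY : ∀ j, j < n - k → DD k (blk j Y) ≠ 0) :
    IsFlag q (n - k) fun j y => DD (k + 1) (blk j (upd Y k y)) / DD k (blk j Y) := by
  constructor
  · intro j hj
    obtain ⟨V, W, hVW, hL⟩ := exists_tri (blk j Y) k (by omega)
    refine ⟨n - j - k, by omega, (pk q k).comp ((Matrix.vecMulLinear W).comp (pj q j)), ?_, ?_⟩
    · have hW : Function.Surjective (Matrix.vecMulLinear W) := by
        intro w
        refine ⟨w ᵥ* V, ?_⟩
        rw [Matrix.vecMulLinear_apply, Matrix.vecMul_vecMul, hVW, Matrix.vecMul_one]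
      rw [LinearMap.coe_comp, LinearMap.coe_comp]
      exact (pk_surj (q := q) k).comp (hW.comp (pj_surj (q := q) j))
    · intro y
      have h1 := DD_succ k (by omega) (blk j (upd Y k y)) V W hVW (fun i hi c hc => by
        have h2 : blk j (upd Y k y) i = blk j Y i := by
          funext c
          unfold blk upd
          rw [if_neg hi.ne]
        rw [h2]
        exact hL i hi c hc)
      rw [DD_upd] at h1
      change DD (k + 1) (blk j (upd Y k y)) / DD k (blk j Y) = _
      rw [h1, mul_div_cancel_left₀ _ (hY j hj), sup_pk]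
      have h3 : blk j (upd Y k y) k = pj q j y := by
        funext c
        unfold blk upd
        rw [if_pos rfl]
        rfl
      rw [h3]
      rfl
  · intro j hj y h
    have h1 : DD (k + 1) (blk j (upd Y k y)) = 0 := by
      rcases div_eq_zero_iff.1 h with h2 | h2
      · exact h2
      · exact absurd h2 (hY j (by omega))
    have h2 := DD_blk_le (k + 1) j (upd Y k y)
    rw [h1] at h2
    change DD (k + 1) (blk (j + 1) (upd Y k y)) / DD k (blk (j + 1) Y) = 0
    rw [le_antisymm h2 bot_le]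
    exact zero_div _

/-- **The integral over one row**, the rows above being fixed. -/
theorem row_int {ι : Type} [Fintype ι] {n : ℕ} (r : Fin n ≃ ι) (Y : ℕ → Fin n → ℤ_[q]) (k : ℕ)
    (hY : ∀ j, j < n - k → DD k (blk j Y) ≠ 0) (σ : ℕ → ℝ) (hσ : ∀ j, 0 ≤ σ j) :
    ∫⁻ y : ι → ℤ_[q], ∏ j ∈ Finset.range (n - k),
      ((DD (k + 1) (blk j (upd Y k fun l => y (r l))) : ℝ≥0) : ℝ≥0∞) ^ σ j ∂(hm q ι)
      = (∏ j ∈ Finset.range (n - k), ((DD k (blk j Y) : ℝ≥0) : ℝ≥0∞) ^ σ j) *
        ENNReal.ofReal (vR q (n - k) σ) := by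
  have hf := row_flag Y k hY
  set δ : ℕ → (ι → ℤ_[q]) → ℝ≥0 := fun j y =>
    DD (k + 1) (blk j (upd Y k fun l => y (r l))) / DD k (blk j Y) with hδ
  have hf' : IsFlag q (n - k) δ := by
    constructor
    · intro j hj
      obtain ⟨d, hd, φ, h1, h2⟩ := hf.1 j hj
      refine ⟨d, hd, φ.comp (LinearMap.funLeft ℤ_[q] ℤ_[q] r), h1.comp
        (LinearMap.funLeft_surjective_of_injective _ _ _ r.injective), fun y => h2 _⟩
    · intro j hj y hy
      exact hf.2 j hj _ hy
  have h1 := flag_int q (n - k) σ hσ ι δ hf'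
  rw [← h1, ← lintegral_const_mul _ (flag_meas q (n - k) δ hf' σ)]
  refine lintegral_congr fun y => ?_
  rw [← Finset.prod_mul_distrib]
  refine Finset.prod_congr rfl fun j hj => ?_
  rw [← ENNReal.mul_rpow_of_nonneg _ _ (hσ j), ← ENNReal.coe_mul, hδ]
  congr 2
  simp only
  rw [mul_div_cancel₀ _ (hY j (Finset.mem_range.1 hj))]

end Pool.Agent.Run7.h827.NP
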